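import Pool.Agent.FF24.Face
import Pool.Agent.FF56.Auto

set_option autoImplicit false

/-!
# FF57/CDef: interface for (C): facet-to-facet tilings in dimension at most 3

(C): a facet-to-facet tiling (in the sense `IsFF`) in dimension 2 or 3 is coherent, or the polytope is centrally
symmetric.

`Cong P y y'`: the minimal faces of `y` and `y'` are translates of each other, up to the sign.
`Fl P y0 u v`: the facets `u`, `v` meet in a ridge which is congruent to the ridge of `y0`.
`Belt P a y0`: the ridges of `a` which are congruent to the ridge of `y0` are part of a belt of 4 or 6 facets, which is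
symmetric: all ridges of the belt are congruent and with a facet it contains the opposite facet.
`Crs P T τ u σ`: crossing the facet `u` of the tile `τ` leads to the tile `σ`.
`Varies P T a`: among the crossings of the facets `a` and `-a` both types occur (same sign, opposite sign).
`Cover P`: helper25's Lemma A. `Dat P a`: everything which is used about a facet which varies in dimension 3.
-/

open Set Metric
open scoped RealInnerProductSpace

namespace Pool.FF57

open Pool.FF24 Pool.FF56

variable {E : Type*} [NormedAddCommGroup E] [InnerProductSpace ℝ E]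

/-- the minimal faces of `y` and `y'` are translates of each other, up to the sign -/
def Cong (P : HPoly E) (y y' : E) : Prop :=
  ∃ c : E, P.mf y' = (fun z => z + c) '' P.mf y ∨ P.mf y' = (fun z => c - z) '' P.mf y

/-- the facets `u`, `v` meet in a ridge which is congruent to the ridge of `y0` -/
def Fl (P : HPoly E) (y0 u v : E) : Prop :=
  u ≠ v ∧ ∃ y ∈ P.body, P.act y = {u, v} ∧ Cong P y0 y

/-- a symmetric belt of 4 or 6 facets through the facet `a` and the ridge of `y0` -/
def Belt (P : HPoly E) (a y0 : E) : Prop :=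
  (∃ b, Fl P y0 a b ∧ Fl P y0 b (-a) ∧ Fl P y0 (-a) (-b) ∧ Fl P y0 (-b) a) ∨
    ∃ b w, Fl P y0 a b ∧ Fl P y0 b w ∧ Fl P y0 w (-a) ∧ Fl P y0 (-a) (-b) ∧ Fl P y0 (-b) (-w) ∧
      Fl P y0 (-w) a

/-- crossing the facet `u` of the tile `τ` leads to the tile `σ` -/
def Crs (P : HPoly E) (T : Set (ℝ × E)) (τ : ℝ × E) (u : E) (σ : ℝ × E) : Prop :=
  τ ∈ T ∧ σ ∈ T ∧ σ ≠ τ ∧ u ∈ P.N ∧ ∃ v ∈ P.N, X σ '' P.fc v = X τ '' P.fc u

/-- among the crossings of the facets `a` and `-a` both types occur -/
def Varies (P : HPoly E) (T : Set (ℝ × E)) (a : E) : Prop :=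
  (∃ τ σ u, (u = a ∨ u = -a) ∧ Crs P T τ u σ ∧ σ.1 = τ.1) ∧
    ∃ τ σ u, (u = a ∨ u = -a) ∧ Crs P T τ u σ ∧ σ.1 = -τ.1

/-- the face of the body in the direction `w` -/
def Fw (P : HPoly E) (w : E) : Set E := {z | z ∈ P.body ∧ ∀ z' ∈ P.body, ⟪w, z'⟫ ≤ ⟪w, z⟫}

/-- the support function -/
noncomputable def supp (P : HPoly E) (w : E) : ℝ := sSup ((fun z => ⟪w, z⟫) '' P.body)

/-- Lemma A: in every direction `ν` orthogonal to a ridge, the face in the direction `ν` or `-ν` contains a ridge
congruent to the given one -/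
def Cover (P : HPoly E) : Prop :=
  ∀ y ∈ P.body, ∀ u v : E, u ≠ v → P.act y = {u, v} → ∀ ν ∈ Submodule.span ℝ {u, v}, ν ≠ 0 →
    ∃ y' ∈ P.body, ∃ u' v' : E, u' ≠ v' ∧ P.act y' = {u', v'} ∧
      Submodule.span ℝ {u', v'} = Submodule.span ℝ {u, v} ∧ Cong P y y' ∧ (y' ∈ Fw P ν ∨ y' ∈ Fw P (-ν))

/-- what is used about a facet which varies, in dimension 3 -/
structure Dat (P : HPoly E) (a : E) : Prop where
  mem : a ∈ P.N
  tra : Tra P a
  csy : Csym P a
  belt : ∀ b, b = a ∨ b = -a → ∀ y0 ∈ P.body, ∀ x, b ≠ x → P.act y0 = {b, x} → Belt P b y0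
  cover : Cover P

end Pool.FF57
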