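import Pool.Agent.FF57.CDef
import Pool.Agent.FF24.Act

set_option autoImplicit false

/-!
# FF57/Bcov: the belt covers all directions orthogonal to the ridge (proofs: helper85)

`fl_perp`: if `g` is orthogonal to the two facets of the ridge `y0` then it is orthogonal to every facet of a flag
`Fl P y0 u v` (the minimal face of `y0` contains `y0 ± ε g`, and so the congruent ridge contains `y ± ε g`; hence
`⟪u, g⟫ = 0`).
`belt_cover`: every direction `w` orthogonal to the ridge lies in the closed cone of a flag of the belt whose opposite is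
a flag of the belt as well.
Proof for the parallelogram: `a`, `b` is a basis of the plane. For the hexagon: `w' = r a + s b` is the middle normal,
`r < 0 < s`, because otherwise `a` or `w'` would lie in the open cone of another flag.
-/

open Set Metric Filter Topology
open scoped RealInnerProductSpace

namespace Pool.FF57

open Pool.FF24 Pool.FF56

variable {E : Type*} [NormedAddCommGroup E] [InnerProductSpace ℝ E] {P : HPoly E}

/-- small steps orthogonal to the active normals stay in the body -/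
theorem small_step {y g : E} (hy : y ∈ P.body) (h : ∀ u ∈ P.act y, ⟪u, g⟫ = 0) :
    ∀ᶠ ε : ℝ in 𝓝 0, y + ε • g ∈ P.body := by
  have h1 : ∀ u ∈ P.N, ∀ᶠ ε : ℝ in 𝓝 0, ⟪u, y + ε • g⟫ ≤ P.h u := by
    intro u hu
    by_cases hact : u ∈ P.act y
    · refine Filter.Eventually.of_forall fun ε => ?_
      rw [inner_add_right, inner_smul_right, h u hact, mul_zero, add_zero]
      exact hy u hu
    · have h2 : ⟪u, y⟫ < P.h u := lt_of_le_of_ne (hy u hu) fun h => hact ⟨hu, h⟩
      have h3 : Continuous (fun ε : ℝ => ⟪u, y + ε • g⟫) := by fun_prop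
      have h4 := h3.tendsto 0
      rw [zero_smul, add_zero] at h4
      exact (h4.eventually (gt_mem_nhds h2)).mono fun _ h => h.le
  have h2 := (Filter.eventually_all_finset P.N).2 h1
  exact h2

theorem fl_perp [FiniteDimensional ℝ E] {y0 a x g u v : E} (hy : y0 ∈ P.body) (h : P.act y0 = {a, x})
    (hga : ⟪a, g⟫ = 0) (hgx : ⟪x, g⟫ = 0) (hf : Fl P y0 u v) : ⟪u, g⟫ = 0 ∧ ⟪v, g⟫ = 0 := by
  have hperp : ∀ w ∈ P.act y0, ⟪w, g⟫ = 0 := by
    intro w hw
    rw [h] at hw
    rcases hw with rfl | hw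
    · exact hga
    · rw [mem_singleton_iff.1 hw]; exact hgx
  have h1 := small_step hy hperp
  have h2 : ∀ᶠ ε : ℝ in 𝓝 0, y0 + (-ε) • g ∈ P.body := by
    have h3 : Tendsto (fun ε : ℝ => -ε) (𝓝 0) (𝓝 0) := by
      have := (continuous_neg (G := ℝ)).tendsto 0
      rwa [neg_zero] at this
    exact h3.eventually h1
  have h3 : ∀ᶠ ε : ℝ in 𝓝[>] 0, y0 + ε • g ∈ P.body ∧ y0 + (-ε) • g ∈ P.body :=
    (h1.and h2).filter_mono nhdsWithin_le_nhds
  obtain ⟨ε, ⟨hp, hm⟩, hε⟩ := (h3.and self_mem_nhdsWithin).exists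
  have hε' : (0 : ℝ) < ε := hε
  have hmem : ∀ δ : ℝ, y0 + δ • g ∈ P.body → y0 + δ • g ∈ P.mf y0 := by
    intro δ hδ
    rw [mf_eq hy]
    refine ⟨hδ, fun w hw => ⟨hw.1, ?_⟩⟩
    rw [inner_add_right, inner_smul_right, hperp w hw, mul_zero, add_zero]
    exact hw.2
  have m1 := hmem ε hp
  have m2 := hmem (-ε) hm
  obtain ⟨-, y, hyb, hact, c, hc⟩ := hf
  have key : ∀ w ∈ P.act y, ⟪w, g⟫ = 0 := by
    intro w hw
    rcases hc with hc | hc
    · have e1 : (y0 + ε • g) + c ∈ P.mf y := by rw [hc]; exact mem_image_of_mem _ m1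
      have e2 : (y0 + (-ε) • g) + c ∈ P.mf y := by rw [hc]; exact mem_image_of_mem _ m2
      rw [mf_eq hyb] at e1 e2
      have f1 := (e1.2 hw).2
      have f2 := (e2.2 hw).2
      rw [← f2] at f1
      rw [inner_add_right, inner_add_right, inner_add_right, inner_add_right, inner_smul_right,
        inner_smul_right] at f1
      have : 2 * ε * ⟪w, g⟫ = 0 := by linarith
      rcases mul_eq_zero.1 this with h | h
      · linarith
      · exact h
    · have e1 : c - (y0 + ε • g) ∈ P.mf y := by rw [hc]; exact mem_image_of_mem _ m1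
      have e2 : c - (y0 + (-ε) • g) ∈ P.mf y := by rw [hc]; exact mem_image_of_mem _ m2
      rw [mf_eq hyb] at e1 e2
      have f1 := (e1.2 hw).2
      have f2 := (e2.2 hw).2
      rw [← f2] at f1
      rw [inner_sub_right, inner_sub_right, inner_add_right, inner_add_right, inner_smul_right,
        inner_smul_right] at f1
      have : 2 * ε * ⟪w, g⟫ = 0 := by linarith
      rcases mul_eq_zero.1 this with h | h
      · linarith
      · exact h
  exact ⟨key u (by rw [hact]; exact mem_insert _ _), key v (by rw [hact]; exact mem_insert_of_mem _ rfl)⟩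

/-- the facets of a flag are in the plane -/
theorem fl_mem [FiniteDimensional ℝ E] {y0 a x u v : E} (hy : y0 ∈ P.body) (h : P.act y0 = {a, x})
    (hf : Fl P y0 u v) : u ∈ Submodule.span ℝ {a, x} ∧ v ∈ Submodule.span ℝ {a, x} := by
  have key : ∀ w : E, (∀ g : E, ⟪a, g⟫ = 0 → ⟪x, g⟫ = 0 → ⟪w, g⟫ = 0) →
      w ∈ Submodule.span ℝ {a, x} := by
    intro w hw
    rw [← Submodule.orthogonal_orthogonal (Submodule.span ℝ {a, x}), Submodule.mem_orthogonal]
    intro g hg
    rw [Submodule.mem_orthogonal] at hg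
    have h1 := hg a (Submodule.subset_span (mem_insert _ _))
    have h2 := hg x (Submodule.subset_span (mem_insert_of_mem _ rfl))
    rw [real_inner_comm]
    exact hw g h1 h2
  exact ⟨key u fun g h1 h2 => (fl_perp hy h h1 h2 hf).1, key v fun g h1 h2 => (fl_perp hy h h1 h2 hf).2⟩

theorem fl_N {y0 u v : E} (hf : Fl P y0 u v) : u ∈ P.N ∧ v ∈ P.N := by
  obtain ⟨-, y, -, hact, -⟩ := hf
  have h1 : u ∈ P.act y := by rw [hact]; exact mem_insert _ _
  have h2 : v ∈ P.act y := by rw [hact]; exact mem_insert_of_mem _ rfl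
  exact ⟨h1.1, h2.1⟩

theorem fl_li {y0 u v : E} (hf : Fl P y0 u v) : LinearIndependent ℝ ![u, v] := by
  obtain ⟨hne, y, hy, hact, -⟩ := hf
  exact act_pair hy (by rw [hact]; exact mem_insert _ _) (by rw [hact]; exact mem_insert_of_mem _ rfl) hne

/-- no facet normal in the open cone of a flag -/
theorem fl_cone {y0 u v n : E} (hf : Fl P y0 u v) (hn : n ∈ P.N) {α β : ℝ} (hα : 0 < α)
    (hβ : 0 < β) (h : n = α • u + β • v) : False := by
  obtain ⟨hne, y, hy, hact, -⟩ := hf
  have hu : u ∈ P.act y := by rw [hact]; exact mem_insert _ _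
  have hv : v ∈ P.act y := by rw [hact]; exact mem_insert_of_mem _ rfl
  obtain ⟨z, hz, hz'⟩ := P.real n hn
  have h1 : ⟪n, z⟫ = P.h n := (hz' n hn).2 rfl
  have h2 : ⟪n, y⟫ ≤ P.h n := hy n hn
  rw [← h1, h, inner_add_left, inner_add_left, real_inner_smul_left, real_inner_smul_left,
    real_inner_smul_left, real_inner_smul_left, hu.2, hv.2] at h2
  have h3 := hz u hu.1
  have h4 := hz v hv.1
  have h5 := mul_le_mul_of_nonneg_left h3 hα.le
  have h6 := mul_le_mul_of_nonneg_left h4 hβ.le
  have h7 : ⟪u, z⟫ = P.h u := mul_left_cancel₀ hα.ne' (by linarith)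
  have h8 : ⟪v, z⟫ = P.h v := mul_left_cancel₀ hβ.ne' (by linarith)
  have e1 := (hz' u hu.1).1 h7
  have e2 := (hz' v hv.1).1 h8
  exact hne (e1.trans e2.symm)

/-- up to the sign one of three vectors -/
def Sg (a s t u : E) : Prop := u = a ∨ u = -a ∨ u = s ∨ u = -s ∨ u = t ∨ u = -t

theorem li_swap {u v : E} (h : LinearIndependent ℝ ![u, v]) : LinearIndependent ℝ ![v, u] := by
  rw [LinearIndependent.pair_iff] at h ⊢
  intro s t hst
  have := h t s (by rw [add_comm]; exact hst)
  exact ⟨this.2, this.1⟩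

theorem li_neg {u v : E} (h : LinearIndependent ℝ ![u, -v]) : LinearIndependent ℝ ![u, v] := by
  rw [LinearIndependent.pair_iff] at h ⊢
  intro s t hst
  have := h s (-t) (by rw [neg_smul, smul_neg, neg_neg]; exact hst)
  exact ⟨this.1, neg_eq_zero.1 this.2⟩

/-- coordinates in the plane -/
theorem coord_of_mem {a x b w : E} (hax : LinearIndependent ℝ ![a, x])
    (hb : b ∈ Submodule.span ℝ {a, x}) (hab : LinearIndependent ℝ ![a, b])
    (hw : w ∈ Submodule.span ℝ {a, x}) : ∃ α β : ℝ, w = α • a + β • b := by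
  rw [Submodule.mem_span_pair] at hb hw
  obtain ⟨p, q, rfl⟩ := hb
  obtain ⟨r, s, rfl⟩ := hw
  have hq : q ≠ 0 := by
    rintro rfl
    rw [LinearIndependent.pair_iff] at hab
    have := hab p (-1) (by rw [zero_smul, add_zero, neg_smul, one_smul]; abel)
    have h2 : (-1 : ℝ) = 0 := this.2
    norm_num at h2
  refine ⟨r - s / q * p, s / q, ?_⟩
  rw [smul_add, smul_smul, smul_smul, sub_smul, div_mul_cancel₀ s hq]
  abel

theorem belt_aux [FiniteDimensional ℝ E] {y0 a x : E} (hy : y0 ∈ P.body)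
    (hax : a ≠ x) (h : P.act y0 = {a, x}) (hB : Belt P a y0) :
    ∃ s t : E, s ∈ Submodule.span ℝ {a, x} ∧ t ∈ Submodule.span ℝ {a, x} ∧ LinearIndependent ℝ ![a, s] ∧
      LinearIndependent ℝ ![a, t] ∧ LinearIndependent ℝ ![s, t] ∧
      ∀ w ∈ Submodule.span ℝ {a, x}, ∃ u v : E, Fl P y0 u v ∧ Fl P y0 (-u) (-v) ∧ Sg a s t u ∧
        Sg a s t v ∧ ∃ α β : ℝ, 0 ≤ α ∧ 0 ≤ β ∧ w = α • u + β • v := by
  have hlax : LinearIndependent ℝ ![a, x] := act_pair hy (by rw [h]; exact mem_insert _ _)
    (by rw [h]; exact mem_insert_of_mem _ rfl) hax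
  have ma : a ∈ Submodule.span ℝ {a, x} := Submodule.subset_span (mem_insert _ _)
  rcases hB with ⟨b, f1, f2, f3, f4⟩ | ⟨b, c, f1, f2, f3, f4, f5, f6⟩
  · have hab := fl_li f1
    have mb := (fl_mem hy h f1).2
    refine ⟨b, a + b, mb, Submodule.add_mem _ ma mb, hab, ?_, ?_, ?_⟩
    · rw [LinearIndependent.pair_iff] at hab ⊢
      intro s t hst
      have h1 := hab (s + t) t (by rw [add_smul, ← hst, smul_add]; abel)
      exact ⟨by linarith [h1.1, h1.2], h1.2⟩
    · rw [LinearIndependent.pair_iff] at hab ⊢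
      intro s t hst
      have h1 := hab t (s + t) (by rw [add_smul, ← hst, smul_add]; abel)
      exact ⟨by linarith [h1.1, h1.2], h1.1⟩
    · intro w hw
      obtain ⟨α, β, rfl⟩ := coord_of_mem hlax mb hab hw
      have sa : Sg a b (a + b) a := Or.inl rfl
      have sa' : Sg a b (a + b) (-a) := Or.inr (Or.inl rfl)
      have sb : Sg a b (a + b) b := Or.inr (Or.inr (Or.inl rfl))
      have sb' : Sg a b (a + b) (-b) := Or.inr (Or.inr (Or.inr (Or.inl rfl)))
      rcases le_total 0 α with hα | hα <;> rcases le_total 0 β with hβ | hβ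
      · exact ⟨a, b, f1, f3, sa, sb, α, β, hα, hβ, rfl⟩
      · refine ⟨-b, a, f4, ?_, sb', sa, -β, α, by linarith, hα, ?_⟩
        · rw [neg_neg]; exact f2
        · rw [smul_neg, neg_smul, neg_neg, add_comm]
      · refine ⟨b, -a, f2, ?_, sb, sa', β, -α, hβ, by linarith, ?_⟩
        · rw [neg_neg]; exact f4
        · rw [smul_neg, neg_smul, neg_neg, add_comm]
      · refine ⟨-a, -b, f3, ?_, sa', sb', -α, -β, by linarith, by linarith, ?_⟩
        · rw [neg_neg, neg_neg]; exact f1
        · rw [smul_neg, smul_neg, neg_smul, neg_smul, neg_neg, neg_neg]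
  · have hab := fl_li f1
    have hbc := fl_li f2
    have hca := li_neg (fl_li f3)
    have mb := (fl_mem hy h f1).2
    have mc := (fl_mem hy h f2).2
    obtain ⟨r, s, hc⟩ := coord_of_mem hlax mb hab mc
    have aN := (fl_N f1).1
    have cN := (fl_N f2).2
    have hr0 : r ≠ 0 := by
      rintro rfl
      rw [LinearIndependent.pair_iff] at hbc
      have := hbc s (-1) (by rw [hc, zero_smul, zero_add, neg_smul, one_smul]; abel)
      have h2 : (-1 : ℝ) = 0 := this.2
      norm_num at h2
    have hs0 : s ≠ 0 := by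
      rintro rfl
      rw [LinearIndependent.pair_iff] at hca
      have := hca (-1) r (by rw [hc, zero_smul, add_zero, neg_smul, one_smul]; abel)
      have h2 : (-1 : ℝ) = 0 := this.1
      norm_num at h2
    have hrs : r < 0 ∧ 0 < s := by
      rcases lt_or_gt_of_ne hr0 with hr | hr <;> rcases lt_or_gt_of_ne hs0 with hs | hs
      · exfalso
        refine fl_cone f4 cN (α := -r) (β := -s) (by linarith) (by linarith) ?_
        rw [smul_neg, smul_neg, neg_smul, neg_smul, neg_neg, neg_neg, hc]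
      · exact ⟨hr, hs⟩
      · exfalso
        refine fl_cone f2 aN (α := -s / r) (β := 1 / r) (by apply div_pos <;> linarith)
          (by positivity) ?_
        rw [hc, smul_add, smul_smul, smul_smul]
        have e1 : 1 / r * r = 1 := by field_simp
        rw [e1, one_smul, neg_div, neg_smul, one_div, inv_mul_eq_div]
        abel
      · exfalso
        exact fl_cone f1 cN hr hs hc
    obtain ⟨hr, hs⟩ := hrs
    have sa : Sg a b c a := Or.inl rfl
    have sa' : Sg a b c (-a) := Or.inr (Or.inl rfl)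
    have sb : Sg a b c b := Or.inr (Or.inr (Or.inl rfl))
    have sb' : Sg a b c (-b) := Or.inr (Or.inr (Or.inr (Or.inl rfl)))
    have sc : Sg a b c c := Or.inr (Or.inr (Or.inr (Or.inr (Or.inl rfl))))
    have sc' : Sg a b c (-c) := Or.inr (Or.inr (Or.inr (Or.inr (Or.inr rfl))))
    have sneg : ∀ u, Sg a b c u → Sg a b c (-u) := by
      rintro u (rfl | rfl | rfl | rfl | rfl | rfl)
      · exact sa'
      · rw [neg_neg]; exact sa
      · exact sb'
      · rw [neg_neg]; exact sb
      · exact sc'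
      · rw [neg_neg]; exact sc
    -- the upper half plane
    have upper : ∀ α β : ℝ, 0 ≤ β → ∃ u v : E, Fl P y0 u v ∧ Fl P y0 (-u) (-v) ∧ Sg a b c u ∧
        Sg a b c v ∧ ∃ α' β' : ℝ, 0 ≤ α' ∧ 0 ≤ β' ∧ α • a + β • b = α' • u + β' • v := by
      intro α β hβ
      rcases le_total 0 α with hα | hα
      · exact ⟨a, b, f1, f4, sa, sb, α, β, hα, hβ, rfl⟩
      · rcases le_total 0 (α * s - β * r) with hd | hd
        · refine ⟨b, c, f2, f5, sb, sc, β - α * s / r, α / r, ?_, div_nonneg_of_nonpos hα hr.le, ?_⟩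
          · have : β - α * s / r = (α * s - β * r) / (-r) := by field_simp; ring
            rw [this]
            exact div_nonneg hd (by linarith)
          · rw [hc, smul_add, smul_smul, smul_smul, div_mul_cancel₀ α hr0, sub_smul]
            have : α * s / r = α / r * s := by ring
            rw [this]
            abel
        · refine ⟨c, -a, f3, ?_, sc, sa', β / s, β * r / s - α, by positivity, ?_, ?_⟩
          · rw [neg_neg]; exact f6
          · have : β * r / s - α = (β * r - α * s) / s := by field_simp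
            rw [this]
            exact div_nonneg (by linarith) hs.le
          · rw [hc, smul_add, smul_smul, smul_smul, div_mul_cancel₀ β hs0, smul_neg, sub_smul]
            have : β * r / s = β / s * r := by ring
            rw [this]
            abel
    refine ⟨b, c, mb, mc, hab, li_swap hca, hbc, ?_⟩
    intro w hw
    obtain ⟨α, β, rfl⟩ := coord_of_mem hlax mb hab hw
    rcases le_total 0 β with hβ | hβ
    · exact upper α β hβ
    · obtain ⟨u, v, g1, g2, g3, g4, α', β', hα', hβ', hw'⟩ := upper (-α) (-β) (by linarith)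
      refine ⟨-u, -v, g2, ?_, sneg u g3, sneg v g4, α', β', hα', hβ', ?_⟩
      · rw [neg_neg, neg_neg]; exact g1
      · rw [smul_neg, smul_neg, ← neg_add, ← hw', neg_smul, neg_smul]
        abel

theorem belt_cover [FiniteDimensional ℝ E] (hd : Module.finrank ℝ E = 3) {y0 a x : E} (hy : y0 ∈ P.body)
    (hax : a ≠ x) (h : P.act y0 = {a, x}) (hB : Belt P a y0) {w : E} (hw : w ∈ Submodule.span ℝ {a, x}) :
    ∃ s t : E, Fl P y0 s t ∧ Fl P y0 (-s) (-t) ∧ ∃ α β : ℝ, 0 ≤ α ∧ 0 ≤ β ∧ w = α • s + β • t := by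
  obtain ⟨s, t, -, -, -, -, -, hall⟩ := belt_aux hy hax h hB
  obtain ⟨u, v, g1, g2, -, -, α, β, hα, hβ, hw'⟩ := hall w hw
  exact ⟨u, v, g1, g2, α, β, hα, hβ, hw'⟩

/-- the normals of the belt, up to the sign: `a` and two more (`s = t` up to the sign for a parallelogram; then take
for `t` any vector of the plane which is not a multiple of `a` or `s`) -/
theorem belt_norm [FiniteDimensional ℝ E] (hd : Module.finrank ℝ E = 3) {y0 a x : E} (hy : y0 ∈ P.body)
    (hax : a ≠ x) (h : P.act y0 = {a, x}) (hB : Belt P a y0) :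
    ∃ s t : E, s ∈ Submodule.span ℝ {a, x} ∧ t ∈ Submodule.span ℝ {a, x} ∧ LinearIndependent ℝ ![a, s] ∧
      LinearIndependent ℝ ![a, t] ∧ LinearIndependent ℝ ![s, t] ∧
      ∀ w ∈ Submodule.span ℝ {a, x}, w ≠ 0 → (∀ r : ℝ, w ≠ r • a) → (∀ r : ℝ, w ≠ r • s) → (∀ r : ℝ, w ≠ r • t) →
        ∃ u v : E, Fl P y0 u v ∧ Fl P y0 (-u) (-v) ∧ ∃ α β : ℝ, 0 < α ∧ 0 < β ∧ w = α • u + β • v := by
  obtain ⟨s, t, ms, mt, l1, l2, l3, hall⟩ := belt_aux hy hax h hB
  refine ⟨s, t, ms, mt, l1, l2, l3, fun w hw hw0 ha hs ht => ?_⟩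
  obtain ⟨u, v, g1, g2, su, sv, α, β, hα, hβ, hw'⟩ := hall w hw
  have key : ∀ (γ : ℝ) (z : E), Sg a s t z → w ≠ γ • z := by
    rintro γ z (rfl | rfl | rfl | rfl | rfl | rfl)
    · exact ha γ
    · rw [smul_neg, ← neg_smul]; exact ha (-γ)
    · exact hs γ
    · rw [smul_neg, ← neg_smul]; exact hs (-γ)
    · exact ht γ
    · rw [smul_neg, ← neg_smul]; exact ht (-γ)
  refine ⟨u, v, g1, g2, α, β, ?_, ?_, hw'⟩
  · refine lt_of_le_of_ne hα fun h0 => ?_
    rw [← h0, zero_smul, zero_add] at hw'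
    exact key β v sv hw'
  · refine lt_of_le_of_ne hβ fun h0 => ?_
    rw [← h0, zero_smul, add_zero] at hw'
    exact key α u su hw'

end Pool.FF57
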