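import Pool.Agent.FF38.Act3
import Pool.Agent.FF65.Gen

set_option autoImplicit false

/-!
# FF57/Edge2S78: a facet of a polytope in dimension 3 has two ridges which are not parallel

Rays from a point `z` with `act z = {n}` in a direction `q` orthogonal to `n`; the exit point for a generic `q` has
exactly two active facets. For `q` near a vector `g` orthogonal to `n` and `x₁` the exit facet is not orthogonal to `g`.
-/

open Set Metric
open scoped RealInnerProductSpace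

namespace Pool.FF57.S78

open Pool.FF24

variable {E : Type*} [NormedAddCommGroup E] [InnerProductSpace ℝ E] {P : HPoly E}

theorem exit_pos {n z : E} (hz : z ∈ P.body) (hzn : ⟪n, z⟫ = P.h n) {q : E} (hq : q ≠ 0)
    (hnq : ⟪n, q⟫ = 0) : ∃ v ∈ P.N, v ≠ n ∧ 0 < ⟪v, q⟫ := by
  by_contra hcon
  push Not at hcon
  obtain ⟨r, hr⟩ := P.bdd
  have h1 : ∀ t : ℝ, 0 ≤ t → ‖z + t • q‖ ≤ r := by
    intro t ht
    refine hr _ fun v hv => ?_
    rw [inner_add_right, inner_smul_right]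
    by_cases hvn : v = n
    · rw [hvn, hnq, hzn]
      simp
    · have h2 := hcon v hv hvn
      have h3 := hz v hv
      nlinarith
  have hq' : 0 < ‖q‖ := norm_pos_iff.2 hq
  have hr0 : 0 ≤ r := le_trans (norm_nonneg _) (h1 0 le_rfl)
  have h2 := h1 ((r + ‖z‖ + 1) / ‖q‖) (by positivity)
  have h3 : ‖((r + ‖z‖ + 1) / ‖q‖) • q‖ = r + ‖z‖ + 1 := by
    rw [norm_smul, Real.norm_eq_abs, abs_of_nonneg (by positivity)]
    field_simp
  have h4 : ‖((r + ‖z‖ + 1) / ‖q‖) • q‖ ≤ ‖z + ((r + ‖z‖ + 1) / ‖q‖) • q‖ + ‖z‖ := by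
    have := norm_sub_le (z + ((r + ‖z‖ + 1) / ‖q‖) • q) z
    rwa [add_sub_cancel_left] at this
  linarith

/-- the exit point for a generic direction -/
theorem one_exit {n z : E} (hn : n ∈ P.N) (hz : z ∈ P.body)
    (hz' : ∀ v ∈ P.N, (⟪v, z⟫ = P.h v ↔ v = n)) {q : E} (hq : q ≠ 0) (hnq : ⟪n, q⟫ = 0)
    (hgen : ∀ v ∈ P.N, ∀ w ∈ P.N, LinearIndependent ℝ ![n, v, w] →
      ⟪(P.h v - ⟪v, z⟫) • w - (P.h w - ⟪w, z⟫) • v, q⟫ ≠ 0) :
    ∃ y ∈ P.body, ∃ v ∈ P.N, v ≠ n ∧ P.act y = {n, v} ∧ 0 < ⟪v, q⟫ ∧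
      ∀ w ∈ P.N, w ≠ n → ⟪w, q⟫ / (P.h w - ⟪w, z⟫) ≤ ⟪v, q⟫ / (P.h v - ⟪v, z⟫) := by
  classical
  have hzn : ⟪n, z⟫ = P.h n := (hz' n hn).2 rfl
  have hc : ∀ v ∈ P.N, v ≠ n → 0 < P.h v - ⟪v, z⟫ := by
    intro v hv hvn
    have h1 := hz v hv
    have h2 : ⟪v, z⟫ ≠ P.h v := fun h => hvn ((hz' v hv).1 h)
    have := lt_of_le_of_ne h1 h2
    linarith
  obtain ⟨v₀, hv₀, hv₀n, hpos₀⟩ := exit_pos hz hzn hq hnq
  obtain ⟨v, hv, hmax⟩ := (P.N.erase n).exists_max_image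
    (fun w => ⟪w, q⟫ / (P.h w - ⟪w, z⟫)) ⟨v₀, Finset.mem_erase.2 ⟨hv₀n, hv₀⟩⟩
  obtain ⟨hvn, hv⟩ := Finset.mem_erase.1 hv
  have hmax' : ∀ w ∈ P.N, w ≠ n → ⟪w, q⟫ / (P.h w - ⟪w, z⟫) ≤ ⟪v, q⟫ / (P.h v - ⟪v, z⟫) :=
    fun w hw hwn => hmax w (Finset.mem_erase.2 ⟨hwn, hw⟩)
  have hcv := hc v hv hvn
  have hvq : 0 < ⟪v, q⟫ := by
    have h1 := hmax' v₀ hv₀ hv₀n
    have h2 : 0 < ⟪v₀, q⟫ / (P.h v₀ - ⟪v₀, z⟫) := div_pos hpos₀ (hc v₀ hv₀ hv₀n)
    have h3 : 0 < ⟪v, q⟫ / (P.h v - ⟪v, z⟫) := lt_of_lt_of_le h2 h1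
    exact (div_pos_iff_of_pos_right hcv).1 h3
  set t : ℝ := (P.h v - ⟪v, z⟫) / ⟪v, q⟫ with ht
  have htv : t * ⟪v, q⟫ = P.h v - ⟪v, z⟫ := by
    rw [ht]
    field_simp
  have ht0 : 0 < t := div_pos hcv hvq
  have hbody : z + t • q ∈ P.body := by
    intro w hw
    rw [inner_add_right, inner_smul_right]
    by_cases hwn : w = n
    · rw [hwn, hnq, hzn]
      simp
    · have h1 := hmax' w hw hwn
      rw [div_le_div_iff₀ (hc w hw hwn) hcv, ← htv] at h1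
      have h2 : ⟪w, q⟫ * t ≤ P.h w - ⟪w, z⟫ := by
        have h3 : (⟪w, q⟫ * t) * ⟪v, q⟫ ≤ (P.h w - ⟪w, z⟫) * ⟪v, q⟫ := by
          calc (⟪w, q⟫ * t) * ⟪v, q⟫ = ⟪w, q⟫ * (t * ⟪v, q⟫) := by ring
            _ ≤ ⟪v, q⟫ * (P.h w - ⟪w, z⟫) := h1
            _ = _ := by ring
        exact le_of_mul_le_mul_right h3 hvq
      linarith
  have hnact : n ∈ P.act (z + t • q) := ⟨hn, by
    rw [inner_add_right, inner_smul_right, hnq, hzn]
    simp⟩
  have hvact : v ∈ P.act (z + t • q) := ⟨hv, by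
    rw [inner_add_right, inner_smul_right, htv]
    ring⟩
  refine ⟨z + t • q, hbody, v, hv, hvn, ?_, hvq, hmax'⟩
  ext w
  constructor
  · intro hw
    by_contra hcon
    have hwn : w ≠ n := fun h => hcon (by rw [h]; exact Set.mem_insert _ _)
    have hwv : w ≠ v := fun h => hcon (by rw [h]; exact Set.mem_insert_of_mem _ rfl)
    have hli := FF38.li_three hnact hvact hw hvn.symm hwn.symm hwv.symm
    refine hgen v hv w hw.1 hli ?_
    have h1 := hw.2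
    rw [inner_add_right, inner_smul_right] at h1
    have h2 : t * ⟪w, q⟫ = P.h w - ⟪w, z⟫ := by linarith
    rw [inner_sub_left, inner_smul_left, inner_smul_left]
    simp only [RCLike.conj_to_real]
    rw [← h2, ← htv]
    ring
  · rintro (h | h)
    · rw [h]
      exact hnact
    · rw [Set.mem_singleton_iff.1 h]
      exact hvact

/-- generic directions orthogonal to `n`, near a given one -/
theorem exists_gen [FiniteDimensional ℝ E] {n z : E} (hn : n ∈ P.N) (hz : z ∈ P.body)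
    (hz' : ∀ v ∈ P.N, (⟪v, z⟫ = P.h v ↔ v = n)) {U : Set E} (hU : IsOpen U) (hne : U.Nonempty) :
    ∃ y ∈ U, ∀ v ∈ P.N, ∀ w ∈ P.N, LinearIndependent ℝ ![n, v, w] →
      ⟪(P.h v - ⟪v, z⟫) • w - (P.h w - ⟪w, z⟫) • v, y - ⟪n, y⟫ • n⟫ ≠ 0 := by
  classical
  let ι := {p : E × E // p ∈ P.N ×ˢ P.N ∧ LinearIndependent ℝ ![n, p.1, p.2]}
  have hfin : Finite ι := by
    refine Set.Finite.to_subtype ?_
    exact (P.N ×ˢ P.N).finite_toSet.subset fun p hp => hp.1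
  let W : ι → E := fun i => (P.h i.1.1 - ⟪i.1.1, z⟫) • i.1.2 - (P.h i.1.2 - ⟪i.1.2, z⟫) • i.1.1
  let W' : ι → E := fun i => W i - ⟪n, W i⟫ • n
  let A : ι → AffineSubspace ℝ E := fun i => (LinearMap.ker (innerₗ E (W' i))).toAffineSubspace
  have hmem : ∀ (i : ι) (y : E), y ∈ A i ↔ ⟪W' i, y⟫ = 0 := by
    intro i y
    show y ∈ (LinearMap.ker (innerₗ E (W' i))).toAffineSubspace ↔ _
    rw [Submodule.mem_toAffineSubspace, LinearMap.mem_ker]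
    rfl
  have hA : ∀ i, A i ≠ ⊤ := by
    intro i htop
    have h1 : W' i ∈ A i := by
      rw [htop]
      exact AffineSubspace.mem_top ℝ E _
    rw [hmem, inner_self_eq_zero] at h1
    obtain ⟨⟨v, w⟩, hp, hli⟩ := i
    have hli' : LinearIndependent ℝ ![n, v, w] := hli
    have hv : v ∈ P.N := (Finset.mem_product.1 hp).1
    have hvn : v ≠ n := by
      intro h
      have := hli'.injective.ne (show (0 : Fin 3) ≠ 1 by decide)
      exact this h.symm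
    have hcv : P.h v - ⟪v, z⟫ ≠ 0 := by
      intro h
      exact hvn ((hz' v hv).1 (by linarith))
    have h2 : (P.h v - ⟪v, z⟫) • w - (P.h w - ⟪w, z⟫) • v -
        ⟪n, (P.h v - ⟪v, z⟫) • w - (P.h w - ⟪w, z⟫) • v⟫ • n = 0 := h1
    rw [Fintype.linearIndependent_iff] at hli'
    have h3 := hli' ![-⟪n, (P.h v - ⟪v, z⟫) • w - (P.h w - ⟪w, z⟫) • v⟫, -(P.h w - ⟪w, z⟫),
      P.h v - ⟪v, z⟫] (by
        rw [Fin.sum_univ_three]
        simp only [Matrix.cons_val_zero, Matrix.cons_val_one, Matrix.cons_val]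
        rw [← h2]
        module) 2
    exact hcv h3
  obtain ⟨y, hyU, hy⟩ := FF65.exists_off_countable A hA hU hne
  refine ⟨y, hyU, fun v hv w hw hli h0 => ?_⟩
  refine hy ⟨(v, w), Finset.mem_product.2 ⟨hv, hw⟩, hli⟩ ?_
  rw [hmem]
  show ⟪((P.h v - ⟪v, z⟫) • w - (P.h w - ⟪w, z⟫) • v) -
    ⟪n, (P.h v - ⟪v, z⟫) • w - (P.h w - ⟪w, z⟫) • v⟫ • n, y⟫ = 0
  rw [inner_sub_right, inner_smul_right] at h0
  rw [inner_sub_left, inner_smul_left, real_inner_comm ((P.h v - ⟪v, z⟫) • w - (P.h w - ⟪w, z⟫) • v) n]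
  simp only [RCLike.conj_to_real]
  linarith

/-- a vector orthogonal to two given vectors, in dimension 3 -/
theorem exists_orth [FiniteDimensional ℝ E] (hd : Module.finrank ℝ E = 3) (u v : E) :
    ∃ g : E, g ≠ 0 ∧ ⟪u, g⟫ = 0 ∧ ⟪v, g⟫ = 0 := by
  have h1 : Module.finrank ℝ (Submodule.span ℝ ({u, v} : Set E)) ≤ 2 := by
    classical
    have := finrank_span_le_card (R := ℝ) ({u, v} : Set E)
    refine le_trans this ?_
    rw [Set.toFinset_card, Fintype.card_eq_nat_card, Nat.card_coe_set_eq]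
    refine le_trans (Set.ncard_insert_le u {v}) ?_
    rw [Set.ncard_singleton]
  have h2 := Submodule.finrank_add_finrank_orthogonal (Submodule.span ℝ ({u, v} : Set E))
  have h3 : 0 < Module.finrank ℝ (Submodule.span ℝ ({u, v} : Set E))ᗮ := by omega
  have h4 : (Submodule.span ℝ ({u, v} : Set E))ᗮ ≠ ⊥ := by
    intro h
    rw [h, finrank_bot] at h3
    exact lt_irrefl _ h3
  obtain ⟨g, hg, hg0⟩ := Submodule.exists_mem_ne_zero_of_ne_bot h4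
  rw [Submodule.mem_orthogonal] at hg
  exact ⟨g, hg0, hg u (Submodule.subset_span (by simp)), hg v (Submodule.subset_span (by simp))⟩

theorem two_edges [FiniteDimensional ℝ E] (hd : Module.finrank ℝ E = 3) {n : E} (hn : n ∈ P.N) :
    ∃ y₁ ∈ P.body, ∃ y₂ ∈ P.body, ∃ x₁ x₂ : E, P.act y₁ = {n, x₁} ∧ P.act y₂ = {n, x₂} ∧
      LinearIndependent ℝ ![n, x₁, x₂] := by
  classical
  obtain ⟨z, hz, hz'⟩ := P.real n hn
  have hzn : ⟪n, z⟫ = P.h n := (hz' n hn).2 rfl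
  have hnn : ⟪n, n⟫ = 1 := by
    rw [real_inner_self_eq_norm_sq, P.unit n hn]
    norm_num
  have hproj : ∀ y : E, ⟪n, y - ⟪n, y⟫ • n⟫ = 0 := by
    intro y
    rw [inner_sub_right, inner_smul_right, hnn]
    ring
  have hc : ∀ v ∈ P.N, v ≠ n → 0 < P.h v - ⟪v, z⟫ := by
    intro v hv hvn
    have h1 := hz v hv
    have h2 : ⟪v, z⟫ ≠ P.h v := fun h => hvn ((hz' v hv).1 h)
    have := lt_of_le_of_ne h1 h2
    linarith
  -- first edge
  obtain ⟨g₀, hg₀, hng₀, -⟩ := exists_orth hd n n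
  have hU₀ : IsOpen {y : E | y - ⟪n, y⟫ • n ≠ 0} := isOpen_ne_fun (by fun_prop) continuous_const
  obtain ⟨a, haU, hagen⟩ := exists_gen hn hz hz' hU₀ ⟨g₀, by
    show g₀ - ⟪n, g₀⟫ • n ≠ 0
    rw [hng₀, zero_smul, sub_zero]
    exact hg₀⟩
  obtain ⟨y₁, hy₁, x₁, hx₁, hx₁n, hact₁, -, -⟩ := one_exit hn hz hz' haU (hproj a) hagen
  -- second edge
  obtain ⟨g, hg, hng, hx₁g⟩ := exists_orth hd n x₁
  obtain ⟨v₀, hv₀, hv₀n, hpos₀⟩ := exit_pos hz hzn hg hng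
  set M : ℝ := ⟪v₀, g⟫ / (P.h v₀ - ⟪v₀, z⟫) with hM
  have hM0 : 0 < M := div_pos hpos₀ (hc v₀ hv₀ hv₀n)
  have hU : IsOpen ({y : E | M / 2 < ⟪v₀, y - ⟪n, y⟫ • n⟫ / (P.h v₀ - ⟪v₀, z⟫)} ∩
      ⋂ v ∈ P.N, {y : E | ⟪v, g⟫ = 0 → ⟪v, y - ⟪n, y⟫ • n⟫ / (P.h v - ⟪v, z⟫) < M / 2}) := by
    refine IsOpen.inter (isOpen_lt continuous_const (by fun_prop)) (isOpen_biInter_finset fun v _ => ?_)
    by_cases hvg : ⟪v, g⟫ = 0
    · have h2 : {y : E | ⟪v, g⟫ = 0 → ⟪v, y - ⟪n, y⟫ • n⟫ / (P.h v - ⟪v, z⟫) < M / 2} =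
          {y : E | ⟪v, y - ⟪n, y⟫ • n⟫ / (P.h v - ⟪v, z⟫) < M / 2} := by
        ext y
        simp [hvg]
      rw [h2]
      exact isOpen_lt (by fun_prop) continuous_const
    · simp [hvg]
  obtain ⟨b, hbU, hbgen⟩ := exists_gen hn hz hz' hU ⟨g, by
    refine ⟨?_, ?_⟩
    · show M / 2 < ⟪v₀, g - ⟪n, g⟫ • n⟫ / (P.h v₀ - ⟪v₀, z⟫)
      rw [hng, zero_smul, sub_zero, ← hM]
      linarith
    · rw [mem_iInter₂]
      intro v _ hvg
      rw [hng, zero_smul, sub_zero, hvg, zero_div]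
      linarith⟩
  obtain ⟨hb1, hb2⟩ := hbU
  rw [mem_iInter₂] at hb2
  have hb1' : M / 2 < ⟪v₀, b - ⟪n, b⟫ • n⟫ / (P.h v₀ - ⟪v₀, z⟫) := hb1
  have hb0 : b - ⟪n, b⟫ • n ≠ 0 := by
    intro h
    rw [h, inner_zero_right, zero_div] at hb1'
    linarith
  obtain ⟨y₂, hy₂, x₂, hx₂, hx₂n, hact₂, -, hmax⟩ := one_exit hn hz hz' hb0 (hproj b) hbgen
  have hx₂g : ⟪x₂, g⟫ ≠ 0 := by
    intro h
    have h1 := hb2 x₂ hx₂ h
    have h2 := hmax v₀ hv₀ hv₀n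
    linarith
  refine ⟨y₁, hy₁, y₂, hy₂, x₁, x₂, hact₁, hact₂, ?_⟩
  have hli : LinearIndependent ℝ ![n, x₁] :=
    FF38.li_pair (by rw [hact₁]; exact Set.mem_insert _ _)
      (by rw [hact₁]; exact Set.mem_insert_of_mem _ rfl) hx₁n.symm
  rw [Fintype.linearIndependent_iff]
  intro c hsum
  rw [Fin.sum_univ_three] at hsum
  simp only [Matrix.cons_val_zero, Matrix.cons_val_one, Matrix.cons_val] at hsum
  have h2 : c 2 = 0 := by
    have h3 := congrArg (fun x => ⟪x, g⟫) hsum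
    simp only [inner_add_left, inner_smul_left, RCLike.conj_to_real, hng, hx₁g, mul_zero, zero_add,
      inner_zero_left] at h3
    exact (mul_eq_zero.1 h3).resolve_right hx₂g
  rw [h2, zero_smul, add_zero] at hsum
  have h3 := LinearIndependent.pair_iff.1 hli _ _ hsum
  intro i
  fin_cases i
  · exact h3.1
  · exact h3.2
  · exact h2

end Pool.FF57.S78
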