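import Pool.Agent.FF57.CDef
import Pool.Agent.FF24.Act
import Pool.Agent.FF57.Edge2S78
import Pool.Agent.FF25.EdgeS

set_option autoImplicit false

/-!
# FF57/Edge: edges of a polytope in dimension 3 (near, edge, seg: proofs in FF25/EdgeS)

`near`: near a point of the body only the active facets count (finitely many inactive facets).
`edge`: if the face in the direction `w ≠ 0` contains two points `x ≠ x'` then `w` is a positive multiple of a facet
normal, or the midpoint `m` has exactly two active facets `u`, `v`, both orthogonal to `x' - x`, and `w` lies in the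
open cone of `u`, `v`. Proof: all active normals at `m` are orthogonal to `x' - x`, so three different ones are
dependent, against `act_three`; so at most two are active. `act m = ∅` is impossible (`m` interior, `w ≠ 0`). By `near`:
`⟪w, q⟫ ≤ 0` if `⟪u, q⟫ ≤ 0` for all active `u`; so `w` is a nonnegative combination of the active normals (linear
algebra with one or two independent vectors; for two use `q` = plus or minus a vector orthogonal to both, and the two
vectors of the dual basis in the plane).
`seg`: the minimal face of a point with two active facets is centrally symmetric (a compact convex subset of a line).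
`two_edges`: a facet has two edges which are not parallel: choose `z` in the facet with `act z = {n}` and a vector `g`
orthogonal to `n`. If all ridges `act y = {n, x}` of the facet had the same direction (`g ⟂ n, x` for all of them) then
the facet would be unbounded: walk from `z` in the direction `±g`: the exit point (or a nearby one) has an active `x` with
`⟪x, g⟫ ≠ 0`. To get an exit point with exactly two active facets: choose the start `z'` near `z` in the facet generic.
Another way: the facet is compact and not contained in a line, so it has three corners; or use `exists_good_in_fc` in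
FF24/Gal and the section lemmas in FF79/Sect (look there first!).
-/

open Set Metric
open scoped RealInnerProductSpace

namespace Pool.FF57

open Pool.FF24 Pool.FF56

variable {E : Type*} [NormedAddCommGroup E] [InnerProductSpace ℝ E] {P : HPoly E}

theorem near {m : E} (hm : m ∈ P.body) :
    ∃ ε : ℝ, 0 < ε ∧ ∀ q : E, ‖q‖ < ε → (∀ u ∈ P.act m, ⟪u, q⟫ ≤ 0) → m + q ∈ P.body :=
  Pool.FF25.nearS hm

theorem edge [FiniteDimensional ℝ E] (hd : Module.finrank ℝ E = 3) {w x x' : E} (hw : w ≠ 0)
    (hx : x ∈ Fw P w) (hx' : x' ∈ Fw P w) (hne : x ≠ x') :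
    (∃ n ∈ P.N, ∃ t : ℝ, 0 < t ∧ w = t • n) ∨
      ∃ m ∈ P.body, ∃ u v : E, u ≠ v ∧ P.act m = {u, v} ∧ ⟪u, x' - x⟫ = 0 ∧ ⟪v, x' - x⟫ = 0 ∧
        ∃ α β : ℝ, 0 < α ∧ 0 < β ∧ w = α • u + β • v :=
  Pool.FF25.edgeS hd hw hx hx' hne

theorem seg [FiniteDimensional ℝ E] (hd : Module.finrank ℝ E = 3) {y u v : E} (hy : y ∈ P.body) (huv : u ≠ v)
    (h : P.act y = {u, v}) : ∃ c : E, ∀ z ∈ P.mf y, c - z ∈ P.mf y :=
  Pool.FF25.segS hd hy huv h

theorem two_edges [FiniteDimensional ℝ E] (hd : Module.finrank ℝ E = 3) {n : E} (hn : n ∈ P.N) :
    ∃ y₁ ∈ P.body, ∃ y₂ ∈ P.body, ∃ x₁ x₂ : E, P.act y₁ = {n, x₁} ∧ P.act y₂ = {n, x₂} ∧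
      LinearIndependent ℝ ![n, x₁, x₂] :=
  S78.two_edges hd hn

end Pool.FF57
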