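import Pool.Agent.FF57.CDef
import Pool.Agent.FF24.LimS

set_option autoImplicit false

/-!
# FF57/Sup: the support function and the faces `Fw P w`

`Fw_near`: the faces of nearby directions are smaller. Proof: for each of the finitely many sets `act z` fix one point;
for small `v` the point `z` in `Fw (w + v)` lies in `Fw w` because every `z'` with the same active set as `z` lies in
`Fw (w + v)` as well.
`loc_lin`: `supp w' - supp (-w')` is linear near `w` if `Fw (-w) = c - Fw w`.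
`csym_of_supp`: if `supp w - supp (-w) = ⟪C, w⟫` for all `w`, then `C - z ∈ body` for `z ∈ body`.
-/

open Set Metric Filter Topology
open scoped RealInnerProductSpace

namespace Pool.FF57

open Pool.FF24 Pool.FF56

variable {E : Type*} [NormedAddCommGroup E] [InnerProductSpace ℝ E] {P : HPoly E}

theorem Fw_nonempty [FiniteDimensional ℝ E] (P : HPoly E) (w : E) : (Fw P w).Nonempty := by
  obtain ⟨z0, hz0⟩ := P.int
  have hne : P.body.Nonempty := ⟨z0, fun u hu => (hz0 u hu).le⟩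
  have hc : ContinuousOn (fun z : E => ⟪w, z⟫) P.body :=
    (continuous_const.inner continuous_id).continuousOn
  obtain ⟨z, hz, hm⟩ := (body_compactS (P := P)).exists_isMaxOn hne hc
  exact ⟨z, hz, fun z' hz' => hm hz'⟩

theorem supp_eq {w z : E} (hz : z ∈ Fw P w) : supp P w = ⟪w, z⟫ := by
  apply IsGreatest.csSup_eq
  refine ⟨⟨z, hz.1, rfl⟩, ?_⟩
  rintro _ ⟨z', hz', rfl⟩
  exact hz.2 z' hz'

theorem le_supp [FiniteDimensional ℝ E] {w z : E} (hz : z ∈ P.body) : ⟪w, z⟫ ≤ supp P w := by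
  obtain ⟨z0, h0⟩ := Fw_nonempty P w
  rw [supp_eq h0]
  exact h0.2 z hz

theorem supp_cont [FiniteDimensional ℝ E] (P : HPoly E) : Continuous (supp P) := by
  obtain ⟨r, hr⟩ := P.bdd
  obtain ⟨z0, hz0⟩ := P.int
  have hr0 : 0 ≤ r := (norm_nonneg _).trans (hr z0 fun u hu => (hz0 u hu).le)
  have key : ∀ w w' : E, supp P w - supp P w' ≤ r * ‖w - w'‖ := by
    intro w w'
    obtain ⟨z, hz⟩ := Fw_nonempty P w
    have h1 := supp_eq hz
    have h2 := le_supp (w := w') hz.1
    have h3 : ⟪w - w', z⟫ ≤ ‖w - w'‖ * ‖z‖ := real_inner_le_norm _ _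
    have h4 : ‖z‖ ≤ r := hr z hz.1
    have h5 : ‖w - w'‖ * ‖z‖ ≤ ‖w - w'‖ * r := mul_le_mul_of_nonneg_left h4 (norm_nonneg _)
    rw [inner_sub_left] at h3
    rw [h1]
    linarith
  refine LipschitzWith.continuous (K := Real.toNNReal r) (LipschitzWith.of_dist_le_mul fun w w' => ?_)
  rw [Real.dist_eq, dist_eq_norm, abs_le, Real.coe_toNNReal r hr0]
  have h1 := key w w'
  have h2 := key w' w
  rw [norm_sub_rev] at h2
  constructor
  · linarith
  · exact h1

theorem Fw_act {w z z' : E} (hz : z ∈ Fw P w) (hz' : z' ∈ P.body) (h : P.act z ⊆ P.act z') :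
    z' ∈ Fw P w := by
  have h1 : z' ∈ P.mf z := by
    rw [mf_eq hz.1]
    exact ⟨hz', h⟩
  obtain ⟨-, s, hs, h2⟩ := h1
  have h3 := hz.2 _ h2
  rw [inner_line] at h3
  have h4 : ⟪w, z⟫ ≤ ⟪w, z'⟫ := by nlinarith
  exact ⟨hz', fun x hx => (hz.2 x hx).trans h4⟩

theorem Fw_near [FiniteDimensional ℝ E] (P : HPoly E) (w : E) :
    ∃ ε : ℝ, 0 < ε ∧ ∀ v : E, ‖v‖ < ε → Fw P (w + v) ⊆ Fw P w := by
  classical
  have key : ∀ A ∈ P.N.powerset, ∀ᶠ v in 𝓝 (0 : E), ∀ z ∈ P.body, P.act z = (A : Set E) →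
      z ∈ Fw P (w + v) → z ∈ Fw P w := by
    intro A _
    by_cases hA : ∃ z ∈ P.body, P.act z = (A : Set E) ∧ z ∉ Fw P w
    · obtain ⟨z, hz, hzA, hzF⟩ := hA
      have h1 : ∃ z' ∈ P.body, ⟪w, z⟫ < ⟪w, z'⟫ := by
        by_contra hcon
        push Not at hcon
        exact hzF ⟨hz, hcon⟩
      obtain ⟨z', hz', h2⟩ := h1
      have h3 : ContinuousAt (fun v : E => ⟪w + v, z' - z⟫) 0 := by
        apply Continuous.continuousAt
        exact (continuous_const.add continuous_id).inner continuous_const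
      have h4 : (0 : ℝ) < ⟪w + 0, z' - z⟫ := by
        rw [add_zero, inner_sub_right]
        linarith
      have h5 := h3.eventually (lt_mem_nhds h4)
      filter_upwards [h5] with v hv x hx hxA hxF
      exfalso
      have h6 : z ∈ Fw P (w + v) := Fw_act hxF hz (by rw [hxA, hzA])
      have h7 := h6.2 z' hz'
      rw [inner_sub_right] at hv
      linarith
    · push Not at hA
      exact Eventually.of_forall fun v z hz hzA _ => hA z hz hzA
  have h1 : ∀ᶠ v in 𝓝 (0 : E), ∀ A ∈ P.N.powerset, ∀ z ∈ P.body, P.act z = (A : Set E) →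
      z ∈ Fw P (w + v) → z ∈ Fw P w := (Filter.eventually_all_finset _).2 key
  obtain ⟨ε, hε, h2⟩ := Metric.eventually_nhds_iff.1 h1
  refine ⟨ε, hε, fun v hv z hz => ?_⟩
  refine h2 (y := v) (by rwa [dist_zero_right]) (P.N.filter fun u => ⟪u, z⟫ = P.h u) ?_ z hz.1 ?_ hz
  · rw [Finset.mem_powerset]
    exact Finset.filter_subset _ _
  · ext u
    simp [HPoly.act]

theorem loc_lin [FiniteDimensional ℝ E] {w c : E} (h : ∀ z ∈ Fw P w, c - z ∈ Fw P (-w))
    (h' : ∀ z ∈ Fw P (-w), c - z ∈ Fw P w) :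
    ∃ ε : ℝ, 0 < ε ∧ ∀ v : E, ‖v‖ < ε → supp P (w + v) - supp P (-(w + v)) = ⟪c, w + v⟫ := by
  obtain ⟨ε, hε, h1⟩ := Fw_near P w
  obtain ⟨ε', hε', h2⟩ := Fw_near P (-w)
  refine ⟨min ε ε', lt_min hε hε', fun v hv => ?_⟩
  have h3 := h1 v (hv.trans_le (min_le_left _ _))
  have h4 : Fw P (-(w + v)) ⊆ Fw P (-w) := by
    have := h2 (-v) (by rw [norm_neg]; exact hv.trans_le (min_le_right _ _))
    rwa [← neg_add] at this
  obtain ⟨z, hz⟩ := Fw_nonempty P (w + v)
  obtain ⟨z', hz'⟩ := Fw_nonempty P (-(w + v))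
  have h5 : c - z' ∈ P.body := (h' z' (h4 hz')).1
  have h6 : c - z ∈ P.body := (h z (h3 hz)).1
  have h7 := hz.2 _ h5
  have h8 := hz'.2 _ h6
  rw [supp_eq hz, supp_eq hz']
  simp only [inner_sub_right, inner_neg_left] at h7 h8 ⊢
  have h9 : ⟪c, w + v⟫ = ⟪w + v, c⟫ := real_inner_comm _ _
  linarith

/-- the facets are the faces in the directions of the normals -/
theorem Fw_fc {u : E} (hu : u ∈ P.N) {t : ℝ} (ht : 0 < t) : Fw P (t • u) = P.fc u := by
  obtain ⟨y, hy1, hy2⟩ := P.real u hu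
  have hyu : ⟪u, y⟫ = P.h u := (hy2 u hu).2 rfl
  ext z
  constructor
  · rintro ⟨h1, h2⟩
    refine ⟨h1, le_antisymm (h1 u hu) ?_⟩
    have h3 := h2 y hy1
    rw [real_inner_smul_left, real_inner_smul_left, hyu] at h3
    exact le_of_mul_le_mul_left h3 ht
  · rintro ⟨h1, h2⟩
    refine ⟨h1, fun z' hz' => ?_⟩
    rw [real_inner_smul_left, real_inner_smul_left, h2]
    exact mul_le_mul_of_nonneg_left (hz' u hu) ht.le

/-- the faces in the directions inside the cone of a ridge -/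
theorem Fw_mf {y u v : E} (hy : y ∈ P.body) (h : P.act y = {u, v}) {α β : ℝ} (hα : 0 < α) (hβ : 0 < β) :
    Fw P (α • u + β • v) = P.mf y := by
  have hu : u ∈ P.act y := by rw [h]; simp
  have hv : v ∈ P.act y := by rw [h]; simp
  rw [mf_eq hy, h]
  ext z
  constructor
  · rintro ⟨h1, h2⟩
    refine ⟨h1, ?_⟩
    have h3 := h2 y hy
    simp only [inner_add_left, real_inner_smul_left] at h3
    rw [hu.2, hv.2] at h3
    have h4 := h1 u hu.1
    have h5 := h1 v hv.1
    have h6 : ⟪u, z⟫ = P.h u := by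
      apply le_antisymm h4
      by_contra hcon
      push Not at hcon
      have h7 := mul_lt_mul_of_pos_left hcon hα
      have h8 := mul_le_mul_of_nonneg_left h5 hβ.le
      linarith
    have h7 : ⟪v, z⟫ = P.h v := by
      apply le_antisymm h5
      by_contra hcon
      push Not at hcon
      have h8 := mul_lt_mul_of_pos_left hcon hβ
      have h9 := mul_le_mul_of_nonneg_left h4 hα.le
      linarith
    intro x hx
    rcases hx with rfl | rfl
    · exact ⟨hu.1, h6⟩
    · exact ⟨hv.1, h7⟩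
  · rintro ⟨h1, h2⟩
    refine ⟨h1, fun z' hz' => ?_⟩
    have h3 : ⟪u, z⟫ = P.h u := (h2 (by simp : u ∈ ({u, v} : Set E))).2
    have h4 : ⟪v, z⟫ = P.h v := (h2 (by simp : v ∈ ({u, v} : Set E))).2
    simp only [inner_add_left, real_inner_smul_left]
    rw [h3, h4]
    have h5 := mul_le_mul_of_nonneg_left (hz' u hu.1) hα.le
    have h6 := mul_le_mul_of_nonneg_left (hz' v hv.1) hβ.le
    linarith

theorem csym_of_supp [FiniteDimensional ℝ E] {C : E} (h : ∀ w, supp P w - supp P (-w) = ⟪C, w⟫) :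
    ∀ z ∈ P.body, C - z ∈ P.body := by
  intro z hz n hn
  obtain ⟨z0, h0⟩ := Fw_nonempty P n
  have h1 := supp_eq h0
  have h2 := h0.1 n hn
  have h3 := le_supp (w := -n) hz
  have h4 := h n
  have h5 : ⟪C, n⟫ = ⟪n, C⟫ := real_inner_comm _ _
  rw [inner_sub_right]
  rw [inner_neg_left] at h3
  linarith

end Pool.FF57
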