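import Pool.Agent.FF57.Sup
import Pool.Agent.FF57.Edge
import Pool.Agent.FF57.Bcov
import Pool.Agent.FF24.D3Dir

set_option autoImplicit false

/-!
# FF57/Dir: the edge directions which are not parallel to a varying facet (proof in FF24/D3Dir)

Let `y₁`, `y₂` be ridges of the facet `a` which are not parallel (`two_edges`), `x₁`, `x₂` the other facets, `g_i ≠ 0`
orthogonal to `a`, `x_i`, `s_i`, `t_i` from `belt_norm`. CLAIM: an edge direction `h` (`act y = {u, v}`, `h ⟂ u, v`) with
`⟪a, h⟫ ≠ 0` is orthogonal to `s₁` or `t₁` (and to `s₂` or `t₂`). Proof: choose `ν ≠ 0` orthogonal to `g₁` and `h`; so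
`ν ∈ span {a, x₁}` and `ν ∈ span {u, v}`. Not a multiple of `a`. If it is not a multiple of `s₁`, `t₁` then `belt_norm`
for `ν` gives flags with `Fw P ν = P.mf y'`, `Fw P (-ν) = P.mf y''` (`Fw_mf`), both are parallel to `g₁` (`fl_perp`); but
`cover` for `y` gives `y''' ∈ Fw P (±ν)` congruent to `y`, and the whole `mf y'''`, which contains two points with
difference parallel to `h`, is in this face. So `h` is parallel to `g₁`, against `⟪a, h⟫ ≠ 0`.
So `h` is a multiple of one of the four vectors `H` orthogonal to one of `s₁, t₁` and one of `s₂, t₂`. Any three of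
the four are independent: two of them with the same `s₁` span the plane orthogonal to `s₁` (independent because
`s₁, s₂, t₂` are: `s₁` in the plane `span {s₂, t₂} = g₂^⊥` would give `s₁ ⟂ g₁, g₂`, so `s₁` is a multiple of `a`), and the
third one is not orthogonal to `s₁`, otherwise it is orthogonal to `s₁, t₁`, so a multiple of `g₁`, and to `s₂` (say); so `s₂ ⟂ g₁, g₂` is a
multiple of `a`.
-/

open Set Metric
open scoped RealInnerProductSpace

namespace Pool.FF57

open Pool.FF24 Pool.FF56

variable {E : Type*} [NormedAddCommGroup E] [InnerProductSpace ℝ E] {P : HPoly E}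

theorem dirs [FiniteDimensional ℝ E] (hd : Module.finrank ℝ E = 3) {a : E} (D : Dat P a) :
    ∃ H : Fin 4 → E, (∀ i j k, i ≠ j → i ≠ k → j ≠ k → LinearIndependent ℝ ![H i, H j, H k]) ∧
      ∀ y ∈ P.body, ∀ u v : E, u ≠ v → P.act y = {u, v} → ∀ h : E, ⟪u, h⟫ = 0 → ⟪v, h⟫ = 0 →
        ⟪a, h⟫ ≠ 0 → ∃ i, ∃ r : ℝ, r ≠ 0 ∧ h = r • H i :=
  FF24.D3.dirs hd D

end Pool.FF57
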