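import Pool.Agent.FF56.PL4

set_option autoImplicit false

/-!
# FF57/DirH: from two pairs of normals to four directions in general position

If every direction with the property `S` is orthogonal to one of `s 0, s 1` and to one of `t 0, t 1`, then it is a
multiple of one of four vectors, every three of which are independent. (`orth2_line` is helper25's `perp_line`.)
-/

open Set Metric
open scoped RealInnerProductSpace

namespace Pool.FF57

open Pool.FF56

variable {E : Type*} [NormedAddCommGroup E] [InnerProductSpace ℝ E]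

/-- a non-zero vector orthogonal to two vectors -/
theorem exists_orth2 [FiniteDimensional ℝ E] (hd : Module.finrank ℝ E = 3) (u v : E) :
    ∃ x : E, x ≠ 0 ∧ ⟪u, x⟫ = 0 ∧ ⟪v, x⟫ = 0 := by
  classical
  let K : Submodule ℝ E := Submodule.span ℝ (({u, v} : Finset E) : Set E)
  have hK : Module.finrank ℝ K ≤ 2 :=
    (finrank_span_finset_le_card _).trans Finset.card_le_two
  have hK' : 0 < Module.finrank ℝ Kᗮ := by
    have := Submodule.finrank_add_finrank_orthogonal K
    omega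
  obtain ⟨x, hx⟩ := (Module.finrank_pos_iff_exists_ne_zero (R := ℝ) (M := Kᗮ)).1 hK'
  have hx' := (Submodule.mem_orthogonal K (x : E)).1 x.2
  exact ⟨x, fun h => hx (by ext; simpa using h),
    hx' u (Submodule.subset_span (by simp)), hx' v (Submodule.subset_span (by simp))⟩

/-- the vectors orthogonal to two independent vectors are on one line -/
theorem orth2_line [FiniteDimensional ℝ E] (h3 : Module.finrank ℝ E = 3) {x y z z' : E}
    (hxy : LinearIndependent ℝ ![x, y]) (hz : z ≠ 0) (h1 : ⟪z, x⟫ = 0) (h2 : ⟪z, y⟫ = 0)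
    (h1' : ⟪z', x⟫ = 0) (h2' : ⟪z', y⟫ = 0) : ∃ r : ℝ, z' = r • z := by
  by_contra hcon
  have hli : LinearIndependent ℝ ![z', z] := by
    rw [LinearIndependent.pair_iff]
    intro s t hst
    have hs : s = 0 := by
      by_contra hs
      apply hcon
      refine ⟨-(s⁻¹ * t), ?_⟩
      have h4 : z' = s⁻¹ • (s • z' + t • z) - (s⁻¹ * t) • z := by
        rw [smul_add, smul_smul, smul_smul, inv_mul_cancel₀ hs, one_smul]
        abel
      rw [h4, hst, smul_zero, zero_sub, neg_smul]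
    rw [hs, zero_smul, zero_add] at hst
    exact ⟨hs, (smul_eq_zero.1 hst).resolve_right hz⟩
  have h4 : LinearIndependent ℝ ![x, y, z', z] := by
    rw [Fintype.linearIndependent_iff]
    intro g hg
    rw [Fin.sum_univ_four] at hg
    simp only [Matrix.cons_val_zero, Matrix.cons_val_one, Matrix.cons_val] at hg
    obtain ⟨A, hA⟩ : ∃ A : E, A = g 0 • x + g 1 • y := ⟨_, rfl⟩
    obtain ⟨B, hB⟩ : ∃ B : E, B = g 2 • z' + g 3 • z := ⟨_, rfl⟩
    have hAB : A + B = 0 := by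
      rw [hA, hB, ← hg]
      abel
    have hin : ⟪B, A⟫ = 0 := by
      rw [hA, hB]
      simp only [inner_add_left, inner_add_right, real_inner_smul_left, real_inner_smul_right,
        h1, h2, h1', h2']
      ring
    have hB0 : B = 0 := by
      rw [← inner_self_eq_zero (𝕜 := ℝ)]
      have h5 : ⟪B, A + B⟫ = 0 := by rw [hAB, inner_zero_right]
      rw [inner_add_right, hin, zero_add] at h5
      exact h5
    have hA0 : A = 0 := by
      rw [hB0, add_zero] at hAB
      exact hAB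
    rw [LinearIndependent.pair_iff] at hxy hli
    obtain ⟨h5, h6⟩ := hxy _ _ (hA ▸ hA0)
    obtain ⟨h7, h8⟩ := hli _ _ (hB ▸ hB0)
    intro i
    fin_cases i
    · exact h5
    · exact h6
    · exact h7
    · exact h8
  have h5 := h4.fintype_card_le_finrank
  rw [h3, Fintype.card_fin] at h5
  omega

theorem gp_four [FiniteDimensional ℝ E] (h3 : Module.finrank ℝ E = 3) (s t : Fin 2 → E)
    (hs : ∀ j, LinearIndependent ℝ ![s 0, s 1, t j]) (ht : ∀ i, LinearIndependent ℝ ![s i, t 0, t 1])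
    (h : Fin 2 → Fin 2 → E) (h0 : ∀ i j, h i j ≠ 0) (hhs : ∀ i j, ⟪h i j, s i⟫ = 0)
    (hht : ∀ i j, ⟪h i j, t j⟫ = 0) (i : Fin 4) :
    LinearIndependent ℝ (fun j : Fin 3 => (![h 0 0, h 0 1, h 1 0, h 1 1] : Fin 4 → E) (i.succAbove j)) := by
  have hs' : ∀ j, LinearIndependent ℝ ![s 1, s 0, t j] := by
    intro j
    have e : ![s 1, s 0, t j] = ![s 0, s 1, t j] ∘ (Equiv.swap (0 : Fin 3) 1) := by
      funext i
      fin_cases i <;> rfl
    rw [e]
    exact (hs j).comp (Equiv.swap (0 : Fin 3) 1) (Equiv.injective _)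
  have ht' : ∀ i, LinearIndependent ℝ ![s i, t 1, t 0] := by
    intro i
    have e : ![s i, t 1, t 0] = ![s i, t 0, t 1] ∘ (Equiv.swap (1 : Fin 3) 2) := by
      funext j
      fin_cases j <;> rfl
    rw [e]
    exact (ht i).comp (Equiv.swap (1 : Fin 3) 2) (Equiv.injective _)
  rw [Fintype.linearIndependent_iff]
  intro c hc
  rw [Fin.sum_univ_three] at hc
  fin_cases i
  · have hc' : c 2 • h 1 1 + c 1 • h 1 0 + c 0 • h 0 1 = 0 := by
      rw [← hc]
      show c 2 • h 1 1 + c 1 • h 1 0 + c 0 • h 0 1 = c 0 • h 0 1 + c 1 • h 1 0 + c 2 • h 1 1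
      abel
    obtain ⟨a1, a2, a3⟩ := gp_triple h3 (hs' 1) (ht' 1) (h0 1 1) (h0 1 0) (h0 0 1) (hhs 1 1)
      (hht 1 1) (hhs 1 0) (hht 1 0) (hhs 0 1) (hht 0 1) hc'
    intro j
    fin_cases j
    · exact a3
    · exact a2
    · exact a1
  · have hc' : c 1 • h 1 0 + c 2 • h 1 1 + c 0 • h 0 0 = 0 := by
      rw [← hc]
      show c 1 • h 1 0 + c 2 • h 1 1 + c 0 • h 0 0 = c 0 • h 0 0 + c 1 • h 1 0 + c 2 • h 1 1
      abel
    obtain ⟨a1, a2, a3⟩ := gp_triple h3 (hs' 0) (ht 1) (h0 1 0) (h0 1 1) (h0 0 0) (hhs 1 0)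
      (hht 1 0) (hhs 1 1) (hht 1 1) (hhs 0 0) (hht 0 0) hc'
    intro j
    fin_cases j
    · exact a3
    · exact a1
    · exact a2
  · have hc' : c 1 • h 0 1 + c 0 • h 0 0 + c 2 • h 1 1 = 0 := by
      rw [← hc]
      show c 1 • h 0 1 + c 0 • h 0 0 + c 2 • h 1 1 = c 0 • h 0 0 + c 1 • h 0 1 + c 2 • h 1 1
      abel
    obtain ⟨a1, a2, a3⟩ := gp_triple h3 (hs 1) (ht' 0) (h0 0 1) (h0 0 0) (h0 1 1) (hhs 0 1)
      (hht 0 1) (hhs 0 0) (hht 0 0) (hhs 1 1) (hht 1 1) hc'
    intro j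
    fin_cases j
    · exact a2
    · exact a1
    · exact a3
  · have hc' : c 0 • h 0 0 + c 1 • h 0 1 + c 2 • h 1 0 = 0 := by
      rw [← hc]
      rfl
    obtain ⟨a1, a2, a3⟩ := gp_triple h3 (hs 0) (ht 0) (h0 0 0) (h0 0 1) (h0 1 0) (hhs 0 0)
      (hht 0 0) (hhs 0 1) (hht 0 1) (hhs 1 0) (hht 1 0) hc'
    intro j
    fin_cases j
    · exact a1
    · exact a2
    · exact a3

theorem triple_of_succAbove {H : Fin 4 → E}
    (h : ∀ l : Fin 4, LinearIndependent ℝ (fun j : Fin 3 => H (l.succAbove j))) (i j k : Fin 4)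
    (hij : i ≠ j) (hik : i ≠ k) (hjk : j ≠ k) : LinearIndependent ℝ ![H i, H j, H k] := by
  have hl : ∀ i j k : Fin 4, ∃ l : Fin 4, i ≠ l ∧ j ≠ l ∧ k ≠ l := by decide
  obtain ⟨l, h1, h2, h3⟩ := hl i j k
  obtain ⟨i', hi⟩ := Fin.exists_succAbove_eq h1
  obtain ⟨j', hj⟩ := Fin.exists_succAbove_eq h2
  obtain ⟨k', hk⟩ := Fin.exists_succAbove_eq h3
  have e : ![H i, H j, H k] = (fun j : Fin 3 => H (l.succAbove j)) ∘ ![i', j', k'] := by
    funext m
    fin_cases m
    · show H i = H (l.succAbove i')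
      rw [hi]
    · show H j = H (l.succAbove j')
      rw [hj]
    · show H k = H (l.succAbove k')
      rw [hk]
  rw [e]
  refine (h l).comp _ ?_
  have hij' : i' ≠ j' := fun h4 => hij (by rw [← hi, ← hj, h4])
  have hik' : i' ≠ k' := fun h4 => hik (by rw [← hi, ← hk, h4])
  have hjk' : j' ≠ k' := fun h4 => hjk (by rw [← hj, ← hk, h4])
  intro m n hmn
  fin_cases m <;> fin_cases n <;> simp_all

/-- the four directions -/
theorem four_dirs [FiniteDimensional ℝ E] (hd : Module.finrank ℝ E = 3) {s t : Fin 2 → E}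
    (hs : ∀ j, LinearIndependent ℝ ![s 0, s 1, t j]) (ht : ∀ i, LinearIndependent ℝ ![s i, t 0, t 1]) :
    ∃ H : Fin 4 → E, (∀ i j k, i ≠ j → i ≠ k → j ≠ k → LinearIndependent ℝ ![H i, H j, H k]) ∧
      ∀ h : E, h ≠ 0 → (∃ i, ⟪s i, h⟫ = 0) → (∃ j, ⟪t j, h⟫ = 0) → ∃ i, ∃ r : ℝ, r ≠ 0 ∧ h = r • H i := by
  choose h h0 h1 h2 using fun i j => exists_orth2 hd (s i) (t j)
  have hhs : ∀ i j, ⟪h i j, s i⟫ = 0 := fun i j => by rw [real_inner_comm]; exact h1 i j
  have hht : ∀ i j, ⟪h i j, t j⟫ = 0 := fun i j => by rw [real_inner_comm]; exact h2 i j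
  refine ⟨![h 0 0, h 0 1, h 1 0, h 1 1],
    triple_of_succAbove (gp_four hd s t hs ht h h0 hhs hht), ?_⟩
  rintro z hz ⟨i, hi⟩ ⟨j, hj⟩
  have hst : LinearIndependent ℝ ![s i, t j] := by
    have e : ![s i, t j] = ![s i, t 0, t 1] ∘ ![(0 : Fin 3), ![1, 2] j] := by
      funext m
      fin_cases m
      · rfl
      · fin_cases j <;> rfl
    rw [e]
    refine (ht i).comp _ ?_
    intro m n hmn
    fin_cases j <;> fin_cases m <;> fin_cases n <;> simp_all
  obtain ⟨r, hr⟩ := orth2_line hd hst (h0 i j) (hhs i j) (hht i j)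
    (by rw [real_inner_comm]; exact hi) (by rw [real_inner_comm]; exact hj)
  have hr0 : r ≠ 0 := by
    rintro rfl
    rw [zero_smul] at hr
    exact hz hr
  fin_cases i <;> fin_cases j
  · exact ⟨0, r, hr0, hr⟩
  · exact ⟨1, r, hr0, hr⟩
  · exact ⟨2, r, hr0, hr⟩
  · exact ⟨3, r, hr0, hr⟩

end Pool.FF57
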