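import Pool.Agent.FF57.Opp
import Pool.Agent.FF56.PL4

set_option autoImplicit false

/-!
# FF57/End: (L): if a facet varies in dimension 3 then the polytope is centrally symmetric

`pl4` is helper56's lemma on piecewise linear odd functions (FF56/PL4).
-/

open Set Metric Filter Topology
open scoped RealInnerProductSpace

namespace Pool.FF57

open Pool.FF24 Pool.FF56

variable {E : Type*} [NormedAddCommGroup E] [InnerProductSpace ℝ E] {P : HPoly E}

/-- helper56's lemma: a continuous odd function which is linear near every point off four planes in general position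
is linear -/
theorem pl4 [FiniteDimensional ℝ E] (hd : Module.finrank ℝ E = 3) {H : Fin 4 → E}
    (hH : ∀ i j k, i ≠ j → i ≠ k → j ≠ k → LinearIndependent ℝ ![H i, H j, H k]) {f : E → ℝ}
    (hc : Continuous f) (ho : ∀ w, f (-w) = -f w) (h2 : ∀ w, f ((2 : ℝ) • w) = 2 * f w)
    (hl : ∀ w, w ≠ 0 → (∀ i, ⟪w, H i⟫ ≠ 0) → ∃ c : E, ∃ ε : ℝ, 0 < ε ∧ ∀ v : E, ‖v‖ < ε → f (w + v) = ⟪c, w + v⟫) :
    ∃ C : E, ∀ w, f w = ⟪C, w⟫ := by
  refine Pool.FF56.pl4 hd ho hc h2 H (fun i => ?_) (fun w hw => ?_)
  · have h1 := hH (i.succAbove 0) (i.succAbove 1) (i.succAbove 2)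
      (fun h => absurd (Fin.succAbove_right_injective h) (by decide))
      (fun h => absurd (Fin.succAbove_right_injective h) (by decide))
      (fun h => absurd (Fin.succAbove_right_injective h) (by decide))
    have h3 : (fun j : Fin 3 => H (i.succAbove j)) =
        ![H (i.succAbove 0), H (i.succAbove 1), H (i.succAbove 2)] := by
      funext j
      fin_cases j <;> rfl
    rw [h3]
    exact h1
  · have hw0 : w ≠ 0 := by
      rintro rfl
      exact hw 0 (inner_zero_right _)
    obtain ⟨c, ε, hε, h3⟩ := hl w hw0 (fun i => by rw [real_inner_comm]; exact hw i)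
    refine ⟨c, ?_⟩
    have h4 : f w = ⟪c, w⟫ := by
      have := h3 0 (by simpa using hε)
      simpa using this
    have h5 : ∀ᶠ v in 𝓝 (0 : E), ‖v‖ < ε := by
      have := Metric.ball_mem_nhds (0 : E) hε
      filter_upwards [this] with v hv
      simpa using hv
    filter_upwards [h5] with v hv
    rw [h3 v hv, h4, inner_add_right]

theorem supp_two [FiniteDimensional ℝ E] (w : E) : supp P ((2 : ℝ) • w) = 2 * supp P w := by
  obtain ⟨z, hz⟩ := Fw_nonempty P w
  have h1 : z ∈ Fw P ((2 : ℝ) • w) := by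
    refine ⟨hz.1, fun z' hz' => ?_⟩
    rw [real_inner_smul_left, real_inner_smul_left]
    have := hz.2 z' hz'
    linarith
  rw [supp_eq h1, supp_eq hz, real_inner_smul_left]

theorem end3 [FiniteDimensional ℝ E] (hd : Module.finrank ℝ E = 3) {a : E} (D : Dat P a) :
    ∃ C : E, ∀ z ∈ P.body, C - z ∈ P.body := by
  obtain ⟨H, h1, h2⟩ := dirs hd D
  obtain ⟨C, hC⟩ := pl4 hd h1 (f := fun w => supp P w - supp P (-w))
    ((supp_cont P).sub ((supp_cont P).comp continuous_neg)) (fun w => by simp)
    (fun w => by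
      have h3 : -((2 : ℝ) • w) = (2 : ℝ) • (-w) := by rw [smul_neg]
      simp only [h3, supp_two]
      ring)
    (fun w hw hw2 => by
      obtain ⟨c, h3, h4⟩ := opp hd D h2 hw hw2
      obtain ⟨ε, hε, h5⟩ := loc_lin h3 h4
      exact ⟨c, ε, hε, h5⟩)
  exact ⟨C, csym_of_supp hC⟩

end Pool.FF57
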