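import Pool.Agent.FF79.Fin
import Pool.Agent.FF24.Basic

/-! FF57/OrbF: the neighbour `nb u τ` has the facet `u` of the tile `τ` as its facet `star u`. -/

set_option autoImplicit false

open Set Metric
open scoped RealInnerProductSpace

namespace Pool.FF57

open Pool.FF24

variable {E : Type*} [NormedAddCommGroup E] [InnerProductSpace ℝ E] {P : HPoly E}

/-- the translations of the gluing data are not `0` -/
theorem c_ne_zero (g : Glue P) {u : E} (hu : u ∈ P.N) (hI : u ∉ g.I) : g.c u ≠ 0 := by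
  intro h0
  obtain ⟨z, hz⟩ := fc_nonempty hu
  have h1 := g.tr u hu hI z hz
  rw [h0, add_zero] at h1
  have h2 : ⟪u, z⟫ = P.h u := hz.2
  have h3 : ⟪-u, z⟫ = P.h (-u) := h1.2
  obtain ⟨z0, hz0⟩ := P.int
  have h4 := hz0 u hu
  have h5 := hz0 (-u) (g.negN u hu hI)
  rw [inner_neg_left] at h3 h5
  linarith

theorem X_nb_j (g : Glue P) {τ : ℝ × E} (hτ : τ.1 = 1 ∨ τ.1 = -1)
    (hσ : ∀ u, (g.nb u τ).1 = 1 ∨ (g.nb u τ).1 = -1) (u y : E) :
    X (g.nb u τ) (g.j u y) = X τ y := by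
  have h1 := crd_nb g hτ u (X τ y)
  rw [crd_X hτ] at h1
  rw [← h1, X_crd (hσ u)]

theorem nb_sign (g : Glue P) {τ : ℝ × E} (hτ : τ.1 = 1 ∨ τ.1 = -1) (u : E) :
    (g.nb u τ).1 = 1 ∨ (g.nb u τ).1 = -1 := by
  by_cases h : u ∈ g.I
  · have e : g.nb u τ = (-τ.1, τ.2 + τ.1 • g.c u) := if_pos h
    rw [e]
    rcases hτ with h | h
    · exact Or.inr (by rw [h])
    · exact Or.inl (by rw [h, neg_neg])
  · have e : g.nb u τ = (τ.1, τ.2 - τ.1 • g.c u) := if_neg h
    rw [e]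
    exact hτ

theorem orb_facet (g : Glue P) {τ : ℝ × E} (hτ : g.Orb τ) {u : E} (hu : u ∈ P.N) :
    g.nb u τ ≠ τ ∧ ((u ∈ g.I ∧ (g.nb u τ).1 = -τ.1) ∨ (u ∉ g.I ∧ (g.nb u τ).1 = τ.1)) ∧
      X (g.nb u τ) '' P.fc (g.star u) = X τ '' P.fc u := by
  have hs := Orb.sign g hτ
  have hs0 : τ.1 ≠ 0 := by rcases hs with h | h <;> rw [h] <;> norm_num
  refine ⟨?_, ?_, ?_⟩
  · by_cases h : u ∈ g.I
    · have e : g.nb u τ = (-τ.1, τ.2 + τ.1 • g.c u) := if_pos h
      rw [e]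
      intro h1
      have h2 : -τ.1 = τ.1 := congrArg Prod.fst h1
      apply hs0
      linarith
    · have e : g.nb u τ = (τ.1, τ.2 - τ.1 • g.c u) := if_neg h
      rw [e]
      intro h1
      have h2 : τ.2 - τ.1 • g.c u = τ.2 := congrArg Prod.snd h1
      rw [sub_eq_self, smul_eq_zero] at h2
      rcases h2 with h2 | h2
      · exact hs0 h2
      · exact c_ne_zero g hu h h2
  · by_cases h : u ∈ g.I
    · have e : g.nb u τ = (-τ.1, τ.2 + τ.1 • g.c u) := if_pos h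
      exact Or.inl ⟨h, by rw [e]⟩
    · have e : g.nb u τ = (τ.1, τ.2 - τ.1 • g.c u) := if_neg h
      exact Or.inr ⟨h, by rw [e]⟩
  · have hX := X_nb_j g hs (nb_sign g hs)
    ext p
    constructor
    · rintro ⟨y', hy', rfl⟩
      have h1 := j_mem g (star_mem g hu) hy'
      rw [star_star g hu] at h1
      have h2 := j_j g (star_mem g hu) y'
      rw [star_star g hu] at h2
      refine ⟨g.j (g.star u) y', h1, ?_⟩
      rw [← hX u, h2]
    · rintro ⟨y, hy, rfl⟩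
      exact ⟨g.j u y, j_mem g hu hy, hX u y⟩

end Pool.FF57
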