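import Pool.Agent.CC95.Fin
import Pool.Agent.FF57.End
import Pool.Agent.FF79.Main
import Pool.Agent.FF24.Csym
import Pool.Agent.FF28.NotVar
import Pool.Agent.FF25.LemA

set_option autoImplicit false

/-!
# FF57/Fin23: facet-to-facet tilings in dimension 3 (STUB, owner helper57; dimension 2: helper79)

`coh_of_not_varies`: if no facet varies then the tiling is coherent with `I` = the facets whose crossings have opposite
signs.
`dat_of_varies`: a facet which varies satisfies `Dat`.
`coh_or_csym`: a facet-to-facet tiling in dimension 3 is coherent for some `I`, or the polytope is centrally symmetric.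
-/

open Set Metric
open scoped RealInnerProductSpace

namespace Pool.FF57

open Pool.FF24 Pool.FF56 Pool.FF79

variable {E : Type*} [NormedAddCommGroup E] [InnerProductSpace ℝ E] {P : HPoly E}

/-- TARGET of the local part (helper56: cases, helper95: rings, helper25: Lemma A) -/
theorem belt_of_varies [FiniteDimensional ℝ E] {T : Set (ℝ × E)} (hT : IsFF P T) {a y0 x : E}
    (hv : Varies P T a) (hy : y0 ∈ P.body) (hax : a ≠ x) (h : P.act y0 = {a, x}) : Belt P a y0 :=
  Pool.CC95.belt_of_varies hT hv hy hax h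

/-- helper25's Lemma A -/
theorem cover_of_isFF {T : Set (ℝ × E)} (hT : IsFF P T) : Cover P := by
  intro y hy u v huv h ν hν hν0
  obtain ⟨y', u', v', hR, hF⟩ := Pool.FF25.lemA hT hy huv h hν hν0
  refine ⟨y', hR.body, u', v', hR.ne, hR.act, hR.span, ?_, ?_⟩
  · obtain ⟨e, c, he, hm⟩ := hR.mf
    rcases he with rfl | rfl
    · refine ⟨c, Or.inl ?_⟩
      simpa using hm
    · refine ⟨c, Or.inr ?_⟩
      rw [hm]
      apply Set.image_congr
      intro z _
      rw [neg_smul, one_smul]
      abel
  · rcases hF with h1 | h1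
    · exact Or.inl ⟨hR.body, h1⟩
    · refine Or.inr ⟨hR.body, fun z hz => ?_⟩
      rw [inner_neg_left, inner_neg_left]
      linarith [h1 z hz]

theorem varies_neg {T : Set (ℝ × E)} {a : E} (hv : Varies P T a) : Varies P T (-a) := by
  obtain ⟨⟨τ, σ, u, h1, h2, h3⟩, τ', σ', u', h1', h2', h3'⟩ := hv
  exact ⟨⟨τ, σ, u, by rw [neg_neg]; exact h1.symm, h2, h3⟩, τ', σ', u', by rw [neg_neg]; exact h1'.symm, h2', h3'⟩

theorem varies_data {T : Set (ℝ × E)} (hT : IsFF P T) {a : E} (hv : Varies P T a) :
    a ∈ P.N ∧ Tra P a ∧ Csym P a := by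
  exact FF28.varies_data hT hv

theorem coh_of_not_varies {T : Set (ℝ × E)} (hT : IsFF P T) (h : ∀ a, ¬ Varies P T a) :
    ∃ I : Set E, IsTiling P I T := by
  exact FF28.coh_of_not_varies hT h

theorem coh_or_csym3 [FiniteDimensional ℝ E] (hd : Module.finrank ℝ E = 3) {T : Set (ℝ × E)} (hT : IsFF P T) :
    (∃ I : Set E, IsTiling P I T) ∨ ∃ C : E, ∀ z ∈ P.body, C - z ∈ P.body := by
  by_cases h : ∀ a, ¬ Varies P T a
  · exact Or.inl (coh_of_not_varies hT h)
  · push Not at h
    obtain ⟨a, ha⟩ := h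
    obtain ⟨h1, h2, h3⟩ := varies_data hT ha
    refine Or.inr (end3 hd (a := a) ⟨h1, h2, h3, ?_, cover_of_isFF hT⟩)
    rintro b (rfl | rfl) y0 hy x hx hy0
    · exact belt_of_varies hT ha hy hx hy0
    · exact belt_of_varies hT (varies_neg ha) hy hx hy0

end Pool.FF57
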