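import Pool.Agent.FF57.Dir
import Pool.Agent.FF24.D3Opp

set_option autoImplicit false

/-!
# FF57/Opp: off the four planes the opposite faces are reflections of each other (proof in FF24/D3Opp)

`H` as in `dirs`. Let `w ≠ 0`, `⟪w, H i⟫ ≠ 0` for all `i`.
`opp2`: if `Fw P w` contains `x ≠ x'` then `Fw P (-w) = c - Fw P w` for some `c`. Proof: `edge`.
(1) `w = t n`, `n ∈ N`. If `n ≠ ±a`: by `two_edges` for `n` there are two ridges `act y_i = {n, x_i}` of `n` with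
independent `n, x₁, x₂`; let `h_i ≠ 0` be orthogonal to `n`, `x_i`: `⟪w, h_i⟫ = 0`, so `h_i` is not a multiple of an `H j`,
so `⟪a, h_i⟫ = 0` by the property of `H`. `h₁`, `h₂` are independent and orthogonal to both `n` and `a`, so `a` is a multiple of
`n`, `n = ±a` (unit vectors). So `n = ±a`, and the faces are `fc a`, `fc (-a)` (`Fw_fc`): use `D.csy` and `D.tra`.
(2) `w = α u + β v`, `act m = {u, v}`: `h := x' - x` is orthogonal to `w`, so not a multiple of an `H j`, so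
`⟪a, h⟫ = 0`, `a ∈ span {u, v}`. `cover` for `m` with `ν = a`: `y'` with `Cong P m y'` and `y' ∈ Fw P (±a) = fc (±a)`, so `b := ±a` is
active at `y'`: `act y' = {b, x''}`. `D.belt` for `b` and `y'`, `belt_cover` for `w ∈ span {u, v} = span {b, x''}`: flags `(s, t)`,
`(-s, -t)` with `w = α' s + β' t`. If `α' = 0` or `β' = 0` then `w` is a multiple of `s` or `t`, so `m ∈ fc s`, `s ∈ {u, v}`, against
the independence of `u, v` (`act_pair`). So `Fw P w = mf y₁`, `Fw P (-w) = mf y₂` (`Fw_mf`), both congruent to `y'`, and `mf y'` is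
centrally symmetric (`seg`).
`opp`: all cases: if both faces are points, `c = x + x'`; if one of them has two points use `opp2` for `w` or for `-w`.
-/

open Set Metric
open scoped RealInnerProductSpace

namespace Pool.FF57

open Pool.FF24 Pool.FF56

variable {E : Type*} [NormedAddCommGroup E] [InnerProductSpace ℝ E] {P : HPoly E}

theorem opp2 [FiniteDimensional ℝ E] (hd : Module.finrank ℝ E = 3) {a : E} (D : Dat P a) {H : Fin 4 → E}
    (hH : ∀ y ∈ P.body, ∀ u v : E, u ≠ v → P.act y = {u, v} → ∀ h : E, ⟪u, h⟫ = 0 → ⟪v, h⟫ = 0 →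
        ⟪a, h⟫ ≠ 0 → ∃ i, ∃ r : ℝ, r ≠ 0 ∧ h = r • H i) {w : E} (hw : w ≠ 0) (hw2 : ∀ i, ⟪w, H i⟫ ≠ 0)
    {x x' : E} (hx : x ∈ Fw P w) (hx' : x' ∈ Fw P w) (hne : x ≠ x') :
    ∃ c : E, (∀ z ∈ Fw P w, c - z ∈ Fw P (-w)) ∧ ∀ z ∈ Fw P (-w), c - z ∈ Fw P w :=
  FF24.D3.opp2 hd D hH hw hw2 hx hx' hne

theorem opp [FiniteDimensional ℝ E] (hd : Module.finrank ℝ E = 3) {a : E} (D : Dat P a) {H : Fin 4 → E}
    (hH : ∀ y ∈ P.body, ∀ u v : E, u ≠ v → P.act y = {u, v} → ∀ h : E, ⟪u, h⟫ = 0 → ⟪v, h⟫ = 0 →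
        ⟪a, h⟫ ≠ 0 → ∃ i, ∃ r : ℝ, r ≠ 0 ∧ h = r • H i) {w : E} (hw : w ≠ 0) (hw2 : ∀ i, ⟪w, H i⟫ ≠ 0) :
    ∃ c : E, (∀ z ∈ Fw P w, c - z ∈ Fw P (-w)) ∧ ∀ z ∈ Fw P (-w), c - z ∈ Fw P w :=
  FF24.D3.opp hd D hH hw hw2

end Pool.FF57
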