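import Pool.Agent.FF79.NecB
import Pool.Agent.FF24.Lim

/-! FF57/UniqS: two tilings with the same set `I` (proofs of the stubs in FF79/Uniq except the last assembly). -/

set_option autoImplicit false

open Set Metric
open scoped RealInnerProductSpace

namespace Pool.FF57

open Pool.FF24 Pool.FF79

variable {E : Type*} [NormedAddCommGroup E] [InnerProductSpace ℝ E] {P : HPoly E} {I : Set E}
  {T T' : Set (ℝ × E)}

theorem X_compS (μ τ : ℝ × E) (z : E) :
    X ((μ.1 * τ.1, μ.1 • τ.2 + μ.2) : ℝ × E) z = X μ (X τ z) := by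
  unfold X
  simp only [mul_smul, smul_add]
  abel

theorem comp_nbS (g : Glue P) (μ τ : ℝ × E) (u : E) :
    ((μ.1 * (g.nb u τ).1, μ.1 • (g.nb u τ).2 + μ.2) : ℝ × E) =
      g.nb u (μ.1 * τ.1, μ.1 • τ.2 + μ.2) := by
  by_cases h : u ∈ g.I
  · have e : ∀ σ : ℝ × E, g.nb u σ = (-σ.1, σ.2 + σ.1 • g.c u) := fun σ => if_pos h
    rw [e, e]
    refine Prod.ext ?_ ?_
    · change μ.1 * -τ.1 = -(μ.1 * τ.1)
      ring
    · change μ.1 • (τ.2 + τ.1 • g.c u) + μ.2 = μ.1 • τ.2 + μ.2 + (μ.1 * τ.1) • g.c u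
      rw [smul_add, mul_smul]
      abel
  · have e : ∀ σ : ℝ × E, g.nb u σ = (σ.1, σ.2 - σ.1 • g.c u) := fun σ => if_neg h
    rw [e, e]
    refine Prod.ext rfl ?_
    change μ.1 • (τ.2 - τ.1 • g.c u) + μ.2 = μ.1 • τ.2 + μ.2 - (μ.1 * τ.1) • g.c u
    rw [smul_sub, mul_smul]
    abel

/-- the motion of a label as a homeomorphism -/
noncomputable def XH {μ : ℝ × E} (hμ : μ.1 = 1 ∨ μ.1 = -1) : E ≃ₜ E where
  toFun := X μ
  invFun := crd μ
  left_inv := crd_X hμ
  right_inv := X_crd hμ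
  continuous_toFun := by unfold X; fun_prop
  continuous_invFun := by unfold crd; fun_prop

theorem X_interior {μ : ℝ × E} (hμ : μ.1 = 1 ∨ μ.1 = -1) (A : Set E) :
    X μ '' interior A = interior (X μ '' A) := (XH hμ).image_interior A

theorem X_closure {μ : ℝ × E} (hμ : μ.1 = 1 ∨ μ.1 = -1) (A : Set E) :
    X μ '' closure A = closure (X μ '' A) := (XH hμ).image_closure A

theorem body_convex (P : HPoly E) : Convex ℝ P.body := by
  intro x hx y hy a b ha hb hab u hu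
  have h1 := hx u hu
  have h2 := hy u hu
  rw [inner_add_right, inner_smul_right, inner_smul_right]
  calc a * ⟪u, x⟫ + b * ⟪u, y⟫ ≤ a * P.h u + b * P.h u :=
        add_le_add (mul_le_mul_of_nonneg_left h1 ha) (mul_le_mul_of_nonneg_left h2 hb)
    _ = P.h u := by rw [← add_mul, hab, one_mul]

theorem body_closed (P : HPoly E) : IsClosed P.body := by
  have e : P.body = ⋂ u ∈ P.N, {z : E | ⟪u, z⟫ ≤ P.h u} := by
    ext z
    simp only [HPoly.body, mem_setOf_eq, mem_iInter]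
  rw [e]
  refine isClosed_biInter fun u _ => isClosed_le ?_ continuous_const
  fun_prop

theorem body_int_nonempty (P : HPoly E) : (interior P.body).Nonempty := by
  obtain ⟨z, hz⟩ := P.int
  refine ⟨z, mem_interior.2 ⟨⋂ u ∈ P.N, {z : E | ⟪u, z⟫ < P.h u}, ?_, ?_, ?_⟩⟩
  · intro y hy u hu
    rw [mem_iInter₂] at hy
    exact (hy u hu).le
  · refine isOpen_biInter_finset fun u _ => isOpen_lt ?_ continuous_const
    fun_prop
  · rw [mem_iInter₂]
    exact fun u hu => hz u hu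

theorem closure_int_body (P : HPoly E) : closure (interior P.body) = P.body := by
  rw [(body_convex P).closure_interior_eq_closure_of_nonempty_interior (body_int_nonempty P),
    (body_closed P).closure_eq]

theorem comp_inj {μ τ σ : ℝ × E} (hμ : μ.1 = 1 ∨ μ.1 = -1)
    (h : ((μ.1 * τ.1, μ.1 • τ.2 + μ.2) : ℝ × E) = (μ.1 * σ.1, μ.1 • σ.2 + μ.2)) : τ = σ := by
  have h0 : μ.1 ≠ 0 := by rcases hμ with h | h <;> rw [h] <;> norm_num
  have h1 : μ.1 * τ.1 = μ.1 * σ.1 := congrArg Prod.fst h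
  have h2 : μ.1 • τ.2 + μ.2 = μ.1 • σ.2 + μ.2 := congrArg Prod.snd h
  refine Prod.ext (mul_left_cancel₀ h0 h1) ?_
  have h3 := add_right_cancel h2
  exact smul_right_injective E h0 h3

theorem comp_image (μ τ : ℝ × E) (A : Set E) :
    X ((μ.1 * τ.1, μ.1 • τ.2 + μ.2) : ℝ × E) '' A = X μ '' (X τ '' A) := by
  rw [image_image]
  exact image_congr fun z _ => X_compS μ τ z

theorem movedS (hT : IsTiling P I T) {μ : ℝ × E} (hμ : μ.1 = 1 ∨ μ.1 = -1) :
    IsTiling P I ((fun τ : ℝ × E => ((μ.1 * τ.1, μ.1 • τ.2 + μ.2) : ℝ × E)) '' T) where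
  sign := by
    rintro _ ⟨τ, hτ, rfl⟩
    dsimp only
    rcases hμ with h | h <;> rcases hT.sign τ hτ with h' | h' <;> rw [h, h'] <;> norm_num
  cover := by
    intro x
    obtain ⟨τ, hτ, h⟩ := hT.cover (crd μ x)
    refine ⟨_, ⟨τ, hτ, rfl⟩, ?_⟩
    dsimp only
    rw [comp_image]
    exact ⟨_, h, X_crd hμ x⟩
  disj := by
    rintro _ ⟨τ, hτ, rfl⟩ _ ⟨σ, hσ, rfl⟩ hne
    dsimp only at hne ⊢
    have h1 : τ ≠ σ := fun h => hne (by rw [h])
    have h2 := hT.disj τ hτ σ hσ h1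
    rw [comp_image, comp_image, ← X_interior hμ, ← X_interior hμ]
    exact (disjoint_image_iff (XH hμ).injective).2 h2
  facet := by
    rintro _ ⟨τ, hτ, rfl⟩ u hu
    obtain ⟨σ, hσ, hne, hs, v, hv, hF⟩ := hT.facet τ hτ u hu
    refine ⟨_, ⟨σ, hσ, rfl⟩, fun h => hne (comp_inj hμ h), ?_, v, hv, ?_⟩
    · rcases hs with ⟨h1, h2⟩ | ⟨h1, h2⟩
      · exact Or.inl ⟨h1, by dsimp only; rw [h2]; ring⟩
      · exact Or.inr ⟨h1, by dsimp only; rw [h2]⟩
    · dsimp only
      rw [comp_image, comp_image, hF]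

theorem eq_of_subsetS (hT : IsTiling P I T) {T₀ : Set (ℝ × E)} (h : T₀ ⊆ T)
    (hc : ∀ x, ∃ τ ∈ T₀, x ∈ X τ '' P.body) : T = T₀ := by
  refine Subset.antisymm ?_ h
  intro ρ hρ
  have hs := hT.sign ρ hρ
  obtain ⟨z, hz⟩ := body_int_nonempty P
  have hx : X ρ z ∈ interior (X ρ '' P.body) := by
    rw [← X_interior hs]
    exact mem_image_of_mem _ hz
  obtain ⟨σ, hσ, hxσ⟩ := hc (X ρ z)
  by_cases hne : ρ = σ
  · rw [hne]
    exact hσ
  · exfalso
    have hd := hT.disj ρ hρ σ (h hσ) hne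
    have hcl : X ρ z ∈ closure (interior (X σ '' P.body)) := by
      have hsσ := hT.sign σ (h hσ)
      rw [← X_interior hsσ, ← X_closure hsσ, closure_int_body]
      exact hxσ
    obtain ⟨y, hy1, hy2⟩ := mem_closure_iff.1 hcl _ isOpen_interior hx
    exact (disjoint_left.1 hd) hy1 hy2

theorem fc_bounded (P : HPoly E) (u : E) : Bornology.IsBounded (P.fc u) := by
  obtain ⟨r, hr⟩ := P.bdd
  rw [isBounded_iff_forall_norm_le]
  exact ⟨r, fun z hz => hr z hz.1⟩

/-- a translation which maps a facet into itself is the identity -/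
theorem trans_zero {u : E} (hu : u ∈ P.N) {w : E} (h : ∀ y ∈ P.fc u, y + w ∈ P.fc u) : w = 0 := by
  obtain ⟨z, hz⟩ := fc_nonempty hu
  have hn : ∀ n : ℕ, z + (n : ℝ) • w ∈ P.fc u := by
    intro n
    induction n with
    | zero => simpa using hz
    | succ n ih =>
      have h1 := h _ ih
      rw [add_assoc] at h1
      have e : ((n + 1 : ℕ) : ℝ) • w = (n : ℝ) • w + w := by
        push_cast
        rw [add_smul, one_smul]
      rw [e]
      exact h1
  obtain ⟨r, hr⟩ := P.bdd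
  have hb : ∀ n : ℕ, (n : ℝ) * ‖w‖ ≤ r + ‖z‖ := by
    intro n
    have h1 := hr _ (hn n).1
    have h2 : (n : ℝ) • w = (z + (n : ℝ) • w) - z := by abel
    calc (n : ℝ) * ‖w‖ = ‖(n : ℝ) • w‖ := by rw [norm_smul, Real.norm_natCast]
      _ = ‖(z + (n : ℝ) • w) - z‖ := by rw [← h2]
      _ ≤ ‖z + (n : ℝ) • w‖ + ‖z‖ := norm_sub_le _ _
      _ ≤ r + ‖z‖ := by linarith
  by_contra hne
  have hpos : 0 < ‖w‖ := norm_pos_iff.2 hne
  obtain ⟨n, hn'⟩ := exists_nat_gt ((r + ‖z‖) / ‖w‖)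
  rw [div_lt_iff₀ hpos] at hn'
  exact absurd (hb n) (not_le.2 hn')

theorem c_agree (g g' : Glue P) (hI : g.I = g'.I) {u : E} (hu : u ∈ P.N) : g.c u = g'.c u := by
  by_cases h : u ∈ g.I
  · have h' : u ∈ g'.I := hI ▸ h
    have h1 : g'.c u - g.c u = 0 := by
      refine trans_zero hu fun y hy => ?_
      have h2 := g'.inv u hu h' _ (g.inv u hu h y hy)
      have e : g'.c u - (g.c u - y) = y + (g'.c u - g.c u) := by abel
      rw [← e]
      exact h2
    exact (sub_eq_zero.1 h1).symm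
  · have h' : u ∉ g'.I := fun h2 => h (hI ▸ h2)
    have h1 : g.c u + g'.c (-u) = 0 := by
      refine trans_zero hu fun y hy => ?_
      have h2 := g'.tr (-u) (g.negN u hu h) (fun h3 => g.negI u hu h (hI ▸ h3)) _
        (g.tr u hu h y hy)
      rw [neg_neg, add_assoc] at h2
      exact h2
    rw [c_neg g' hu h'] at h1
    exact sub_eq_zero.1 (by rw [sub_eq_add_neg]; exact h1)

theorem glue_agreeS (g g' : Glue P) (hI : g.I = g'.I) {u : E} (hu : u ∈ P.N) (τ : ℝ × E) :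
    g.nb u τ = g'.nb u τ := by
  have hc := c_agree g g' hI hu
  by_cases h : u ∈ g.I
  · have h' : u ∈ g'.I := hI ▸ h
    have e : g.nb u τ = (-τ.1, τ.2 + τ.1 • g.c u) := if_pos h
    have e' : g'.nb u τ = (-τ.1, τ.2 + τ.1 • g'.c u) := if_pos h'
    rw [e, e', hc]
  · have h' : u ∉ g'.I := fun h2 => h (hI ▸ h2)
    have e : g.nb u τ = (τ.1, τ.2 - τ.1 • g.c u) := if_neg h
    have e' : g'.nb u τ = (τ.1, τ.2 - τ.1 • g'.c u) := if_neg h'
    rw [e, e', hc]

/-- the orbit, moved to a label of a tiling, lies in the tiling -/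
theorem orb_subset (g : Glue P) (hT : IsTiling P I T) (hI : g.I = I) {τ : ℝ × E} (hτ : τ ∈ T)
    {σ : ℝ × E} (hσ : g.Orb σ) : ((τ.1 * σ.1, τ.1 • σ.2 + τ.2) : ℝ × E) ∈ T := by
  obtain ⟨g', hI', hnb⟩ := exists_glue P hT
  induction hσ with
  | base => simpa using hτ
  | @step σ u _ hu ih =>
    have h1 := hnb _ ih u hu
    rw [← glue_agreeS g g' (hI.trans hI'.symm) hu, ← comp_nbS g] at h1
    exact h1

end Pool.FF57
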